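import Mathlib

/-!
Algebraic part: polynomials with Mahler measure `τ` and root `τ`, conjugates.
-/

namespace Pool.Agent.Helper96.Salem

open Polynomial

/-- Pisot number -/
def IsPisot (θ : ℝ) : Prop :=
  IsIntegral ℤ θ ∧ 1 < θ ∧ ∀ z : ℂ, aeval z (minpoly ℚ θ) = 0 → z ≠ (θ : ℂ) → ‖z‖ < 1

theorem reverse_X_sub_C' (t : ℂ) : (X - C t : ℂ[X]).reverse = 1 - C t * X := by
  rw [reverse, natDegree_X_sub_C, reflect_sub, reflect_one_X, reflect_C, pow_one]

theorem extract {τ : ℝ} (hτ : 1 < τ) {F : ℤ[X]} (hF : F ≠ 0) (hroot : aeval τ F = 0)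
    (hM : (F.map (Int.castRingHom ℂ)).mahlerMeasure = τ) :
    ∃ (G : ℤ[X]) (R : ℂ[X]), G.coeff 0 = 1 ∧ G.support.card ≤ F.support.card ∧
      (∀ B, (∀ i, |F.coeff i| ≤ B) → ∀ i, |G.coeff i| ≤ B) ∧ R ≠ 0 ∧
      (∀ a, R.eval a = 0 → 1 ≤ ‖a‖) ∧
      G.map (Int.castRingHom ℂ) = (1 - C (τ : ℂ) * X) * R := by
  have hinj : Function.Injective (Int.castRingHom ℂ) := Int.cast_injective
  set Fc := F.map (Int.castRingHom ℂ) with hFc
  have hFc0 : Fc ≠ 0 := (Polynomial.map_ne_zero_iff hinj).2 hF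
  have hr : Fc.IsRoot (τ : ℂ) := by
    rw [IsRoot, hFc, eval_map, ← algebraMap_int_eq, ← aeval_def]
    have := aeval_algebraMap_apply ℂ τ F
    rw [hroot, map_zero] at this
    exact this
  obtain ⟨Q, hQ⟩ := dvd_iff_isRoot.2 hr
  have hQ0 : Q ≠ 0 := by
    rintro rfl
    rw [mul_zero] at hQ
    exact hFc0 hQ
  have hτn : ‖(τ : ℂ)‖ = τ := by
    rw [Complex.norm_real, Real.norm_eq_abs, abs_of_pos (by linarith)]
  have hMQ : Q.mahlerMeasure = 1 := by
    rw [hQ, mahlerMeasure_mul, mahlerMeasure_X_sub_C, hτn, max_eq_right hτ.le] at hM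
    have : τ * Q.mahlerMeasure = τ * 1 := by rw [hM, mul_one]
    exact mul_left_cancel₀ (by linarith) this
  have hlc : Q.leadingCoeff = (F.leadingCoeff : ℂ) := by
    have h1 : Fc.leadingCoeff = (F.leadingCoeff : ℂ) := by
      rw [hFc, leadingCoeff_map_of_injective hinj]; rfl
    rw [← h1, hQ, leadingCoeff_mul, leadingCoeff_X_sub_C, one_mul]
  have hlcn : ‖Q.leadingCoeff‖ = |(F.leadingCoeff : ℝ)| := by
    rw [hlc, Complex.norm_intCast]
  have hlF : F.leadingCoeff ≠ 0 := leadingCoeff_ne_zero.2 hF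
  have habs : |F.leadingCoeff| = 1 := by
    have h1 : 1 ≤ |F.leadingCoeff| := Int.one_le_abs hlF
    have h2 : |(F.leadingCoeff : ℝ)| ≤ 1 := by
      rw [← hlcn, ← hMQ]; exact leadingCoeff_le_mahlerMeasure Q
    have h3 : ((|F.leadingCoeff| : ℤ) : ℝ) ≤ 1 := by rw [Int.cast_abs]; exact h2
    have h4 : |F.leadingCoeff| ≤ 1 := by exact_mod_cast h3
    omega
  have hsq : F.leadingCoeff * F.leadingCoeff = 1 := by
    rw [← abs_mul_abs_self, habs, one_mul]
  have hQlc : ‖Q.leadingCoeff‖ = 1 := by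
    rw [hlcn, ← Int.cast_abs, habs, Int.cast_one]
  have hQroots : ∀ a, Q.eval a = 0 → ‖a‖ ≤ 1 := by
    intro a ha
    obtain ⟨Q2, hQ2⟩ := dvd_iff_isRoot.2 (show Q.IsRoot a from ha)
    have h1 : Q2.leadingCoeff = Q.leadingCoeff := by
      rw [hQ2, leadingCoeff_mul, leadingCoeff_X_sub_C, one_mul]
    have h2 := leadingCoeff_le_mahlerMeasure Q2
    rw [h1, hQlc] at h2
    have h3 := hMQ
    rw [hQ2, mahlerMeasure_mul, mahlerMeasure_X_sub_C] at h3
    have h4 : ‖a‖ ≤ max 1 ‖a‖ := le_max_right _ _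
    have h5 : 0 ≤ max 1 ‖a‖ := le_trans zero_le_one (le_max_left _ _)
    nlinarith
  set F1 : ℤ[X] := C F.leadingCoeff * F with hF1
  have hF1lc : F1.leadingCoeff = 1 := by
    rw [hF1, leadingCoeff_mul, leadingCoeff_C, hsq]
  set Q1 : ℂ[X] := C (F.leadingCoeff : ℂ) * Q with hQ1
  have hlcC : (F.leadingCoeff : ℂ) ≠ 0 := by exact_mod_cast hlF
  have hQ10 : Q1 ≠ 0 := mul_ne_zero (C_ne_zero.2 hlcC) hQ0
  have hF1c : F1.map (Int.castRingHom ℂ) = (X - C (τ : ℂ)) * Q1 := by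
    rw [hF1, Polynomial.map_mul, map_C, ← hFc, hQ, hQ1]
    simp only [eq_intCast]
    ring
  refine ⟨F1.reverse, Q1.reverse, ?_, ?_, ?_, ?_, ?_, ?_⟩
  · rw [coeff_zero_reverse, hF1lc]
  · rw [reverse, reflect_support]
    refine Finset.card_image_le.trans (Finset.card_le_card fun i hi => ?_)
    rw [hF1, mem_support_iff, coeff_C_mul] at hi
    rw [mem_support_iff]
    exact right_ne_zero_of_mul hi
  · intro B hB i
    rw [coeff_reverse, hF1, coeff_C_mul, abs_mul, habs, one_mul]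
    exact hB _
  · exact (reverse_eq_zero (f := Q1)).not.2 hQ10
  · intro a ha
    have ha0 : a ≠ 0 := by
      rintro rfl
      rw [← coeff_zero_eq_eval_zero, coeff_zero_reverse] at ha
      exact hQ10 (leadingCoeff_eq_zero.1 ha)
    let _ : Invertible (a⁻¹) := invertibleOfNonzero (inv_ne_zero ha0)
    have h1 := eval₂_reverse_eq_zero_iff (RingHom.id ℂ) (a⁻¹) Q1
    have h2 : ⅟(a⁻¹) = a := by rw [invOf_eq_inv, inv_inv]
    rw [h2] at h1
    have h3 : Q1.eval (a⁻¹) = 0 := h1.1 ha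
    rw [hQ1, eval_mul, eval_C] at h3
    have h4 : Q.eval (a⁻¹) = 0 := (mul_eq_zero.1 h3).resolve_left hlcC
    have h5 := hQroots _ h4
    rw [norm_inv] at h5
    exact (inv_le_one₀ (norm_pos_iff.2 ha0)).1 h5
  · have h1 : F1.reverse.map (Int.castRingHom ℂ) = (F1.map (Int.castRingHom ℂ)).reverse := by
      rw [reverse, reverse, reflect_map, natDegree_map_eq_of_injective hinj]
    rw [h1, hF1c, reverse_mul_of_domain, reverse_X_sub_C']

theorem conj_transfer {c : ℝ} (hc : IsIntegral ℤ c) {z : ℂ}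
    (hz : aeval z (minpoly ℚ c) = 0) (P : ℤ[X]) (hP : aeval z P = 0) :
    aeval (c : ℂ) P = 0 := by
  have hcQ : IsIntegral ℚ c := hc.tower_top
  have h1 : minpoly ℚ c = minpoly ℚ z :=
    minpoly.eq_of_irreducible_of_monic (minpoly.irreducible hcQ) hz (minpoly.monic hcQ)
  have h2 : aeval z (P.map (algebraMap ℤ ℚ)) = 0 := by rw [aeval_map_algebraMap]; exact hP
  have h3 : minpoly ℚ c ∣ P.map (algebraMap ℤ ℚ) := by
    rw [h1]; exact minpoly.dvd ℚ z h2
  obtain ⟨S, hS⟩ := h3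
  have h4 : aeval c (P.map (algebraMap ℤ ℚ)) = 0 := by
    rw [hS, map_mul, minpoly.aeval, zero_mul]
  rw [aeval_map_algebraMap] at h4
  have := aeval_algebraMap_apply ℂ c P
  rw [h4, map_zero] at this
  exact this

theorem zpow_transfer {c z : ℂ} (hc : c ≠ 0) (hz : z ≠ 0)
    (h : ∀ P : ℤ[X], aeval z P = 0 → aeval c P = 0) (s : Finset ℕ) (a : ℕ → ℤ) (d : ℕ → ℤ)
    (h0 : ∑ i ∈ s, (a i : ℂ) * (z⁻¹) ^ (d i) = 0) :
    ∑ i ∈ s, (a i : ℂ) * (c⁻¹) ^ (d i) = 0 := by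
  obtain ⟨D, hD⟩ : ∃ D : ℕ, ∀ i ∈ s, d i ≤ D := by
    refine ⟨∑ i ∈ s, (d i).toNat, fun i hi => ?_⟩
    have h1 : (d i).toNat ≤ ∑ i ∈ s, (d i).toNat :=
      Finset.single_le_sum (f := fun i => (d i).toNat) (fun _ _ => Nat.zero_le _) hi
    have h2 : d i ≤ ((d i).toNat : ℤ) := Int.self_le_toNat _
    push_cast at h1 ⊢
    have h3 : ((d i).toNat : ℤ) ≤ ((∑ i ∈ s, (d i).toNat : ℕ) : ℤ) := by exact_mod_cast h1
    push_cast at h3
    linarith
  have key : ∀ x : ℂ, x ≠ 0 → aeval x (∑ i ∈ s, C (a i) * X ^ ((D : ℤ) - d i).toNat : ℤ[X]) =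
      x ^ D * ∑ i ∈ s, (a i : ℂ) * (x⁻¹) ^ (d i) := by
    intro x hx
    rw [map_sum, Finset.mul_sum]
    refine Finset.sum_congr rfl fun i hi => ?_
    have h1 : (((D : ℤ) - d i).toNat : ℤ) = D - d i :=
      Int.toNat_of_nonneg (by linarith [hD i hi])
    have h2 : x ^ ((D : ℤ) - d i).toNat = x ^ D * (x⁻¹) ^ (d i) := by
      rw [← zpow_natCast, h1, zpow_sub₀ hx, zpow_natCast, inv_zpow, div_eq_mul_inv]
    rw [map_mul, aeval_C, map_pow, aeval_X, h2, algebraMap_int_eq]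
    simp only [eq_intCast]
    ring
  have h1 := h _ (by rw [key z hz, h0, mul_zero])
  rw [key c hc] at h1
  exact (mul_eq_zero.1 h1).resolve_left (pow_ne_zero _ hc)

theorem pisot_of {c : ℝ} (hc : 1 < c) (A : ℤ[X]) (h0 : A.coeff 0 = 1)
    (hroot : (A.map (Int.castRingHom ℂ)).eval ((c : ℂ)⁻¹) = 0)
    (hdisc : ∀ w : ℂ, ‖w‖ < 1 → (A.map (Int.castRingHom ℂ)).eval w = 0 → w = (c : ℂ)⁻¹)
    (hcirc : IsIntegral ℤ c → ∀ z : ℂ, aeval z (minpoly ℚ c) = 0 → ‖z⁻¹‖ = 1 → z⁻¹ ≠ 1 →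
      (A.map (Int.castRingHom ℂ)).eval z⁻¹ = 0 → False) : IsPisot c := by
  have hcC : (c : ℂ) ≠ 0 := by
    rw [Ne, Complex.ofReal_eq_zero]; linarith
  have hA0 : A ≠ 0 := by
    rintro rfl
    simp at h0
  have hrev : ∀ z : ℂ, z ≠ 0 → (aeval z A.reverse = 0 ↔
      (A.map (Int.castRingHom ℂ)).eval z⁻¹ = 0) := by
    intro z hz
    let _ : Invertible (z⁻¹) := invertibleOfNonzero (inv_ne_zero hz)
    have h1 := eval₂_reverse_eq_zero_iff (Int.castRingHom ℂ) (z⁻¹) A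
    have h2 : ⅟(z⁻¹) = z := by rw [invOf_eq_inv, inv_inv]
    rw [h2] at h1
    rw [eval_map, ← h1, aeval_def, algebraMap_int_eq]
  have hmonic : A.reverse.Monic := by
    have h1 : A.natTrailingDegree = 0 := by
      rw [natTrailingDegree_eq_zero]
      right
      rw [h0]; norm_num
    rw [Monic, reverse_leadingCoeff, trailingCoeff, h1, h0]
  have hcrev : aeval (c : ℂ) A.reverse = 0 := (hrev _ hcC).2 hroot
  have hcrev' : aeval c A.reverse = 0 := by
    have h1 := aeval_algebraMap_apply ℂ c A.reverse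
    have h2 : (algebraMap ℝ ℂ) (aeval c A.reverse) = 0 := by rw [← h1]; exact hcrev
    exact (map_eq_zero (algebraMap ℝ ℂ)).1 h2
  have hint : IsIntegral ℤ c := ⟨A.reverse, hmonic, by rw [← aeval_def]; exact hcrev'⟩
  have hcQ : IsIntegral ℚ c := hint.tower_top
  refine ⟨hint, hc, ?_⟩
  intro z hz hzc
  have hdvd : minpoly ℚ c ∣ A.reverse.map (algebraMap ℤ ℚ) := by
    apply minpoly.dvd
    rw [aeval_map_algebraMap]
    exact hcrev'
  have hz0 : z ≠ 0 := by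
    rintro rfl
    have h1 : (minpoly ℚ c).coeff 0 = 0 := by
      rw [← coeff_zero_eq_aeval_zero'] at hz
      exact (map_eq_zero (algebraMap ℚ ℂ)).1 hz
    have h2 := minpoly.coeff_zero_ne_zero hcQ (by linarith : c ≠ 0)
    exact h2 h1
  have hzrev : aeval z A.reverse = 0 := by
    obtain ⟨S, hS⟩ := hdvd
    have h1 : aeval z (A.reverse.map (algebraMap ℤ ℚ)) = 0 := by rw [hS, map_mul, hz, zero_mul]
    rwa [aeval_map_algebraMap] at h1
  have hzA := (hrev z hz0).1 hzrev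
  by_contra hcon
  rw [not_lt] at hcon
  have h1 : ‖z⁻¹‖ ≤ 1 := by
    rw [norm_inv]; exact inv_le_one_of_one_le₀ hcon
  rcases h1.lt_or_eq with h2 | h2
  · have h3 := hdisc _ h2 hzA
    exact hzc (inv_injective h3)
  · by_cases h3 : z⁻¹ = 1
    · have hz1 : z = 1 := by rw [← inv_inv z, h3, inv_one]
      rw [hz1] at hz
      -- `1` is a root of the minimal polynomial
      have h4 := conj_transfer hint hz (X - 1) (by simp)
      simp only [map_sub, aeval_X, map_one] at h4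
      rw [sub_eq_zero] at h4
      have h5 : c = 1 := by exact_mod_cast h4
      linarith
    · exact hcirc hint z hz h2 h3 hzA

end Pool.Agent.Helper96.Salem
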