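import Pool.Agent.Helper96.Salem.Layer

/-!
Exponential sums with slowly varying coefficients: the negative part of the logarithm against a
kernel.
-/

namespace Pool.Agent.Helper96.Salem

open MeasureTheory Set

/-- exponential sum with variable coefficients -/
noncomputable def BS (s : Finset ℕ) (lam : ℕ → ℝ) (b : ℕ → ℝ → ℂ) (t : ℝ) : ℂ :=
  ∑ i ∈ s, b i t * Complex.exp (((lam i * t : ℝ) : ℂ) * Complex.I)

theorem local_SV {k N : ℕ} {C : ℝ} (hC : 1 ≤ C) (hN : 1 ≤ N) (h : SVP k C N) {s : Finset ℕ}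
    (hs : s.card ≤ k) {lam : ℕ → ℝ} {b : ℕ → ℝ → ℂ} {Λ : ℝ} (hΛ : 0 ≤ Λ)
    (hLip : ∀ i ∈ s, ∀ x y, ‖b i x - b i y‖ ≤ Λ * |x - y|) {j : ℕ} (hj : j ∈ s) {β : ℝ}
    (hβ : 0 < β) {u ℓ g : ℝ} (hg : 0 < g) (hℓ : 0 < ℓ) (hgℓ : 2 * Real.pi ≤ g * ℓ)
    (hsep : ∀ i ∈ s, ∀ i' ∈ s, i ≠ i' → g ≤ |lam i - lam i'|) (hb : β ≤ ‖b j u‖) {m : ℕ}
    (herr : k * (Λ * ℓ) ≤ Real.exp (-(m : ℝ)) ^ N) :
    volume {t | t ∈ Icc u (u + ℓ) ∧ ‖BS s lam b t‖ ≤ Real.exp (-(m : ℝ)) ^ N} ≤
      ENNReal.ofReal (C * max 1 (2 / β) * ℓ * Real.exp (-(m : ℝ))) := by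
  set κ : ℝ := max 1 (2 / β) with hκ
  have hκ1 : 1 ≤ κ := le_max_left _ _
  set e : ℝ := Real.exp (-(m : ℝ)) with he
  have he0 : 0 < e := Real.exp_pos _
  by_cases hcase : κ * e ≤ 1
  · have h1 := h s hs lam (fun i => b i u / (β : ℂ)) j hj (by
      rw [norm_div, Complex.norm_real, Real.norm_eq_abs, abs_of_pos hβ, le_div_iff₀ hβ, one_mul]
      exact hb) g ℓ u hg hℓ hgℓ hsep (κ * e) (by positivity) hcase
    refine (measure_mono ?_).trans (h1.trans (le_of_eq ?_))
    · rintro t ⟨ht1, ht2⟩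
      refine ⟨ht1, ?_⟩
      have e1 : ES s lam (fun i => b i u / (β : ℂ)) t = (BS s lam b t -
          ∑ i ∈ s, (b i t - b i u) * Complex.exp (((lam i * t : ℝ) : ℂ) * Complex.I)) /
            (β : ℂ) := by
        unfold ES BS
        rw [← Finset.sum_sub_distrib, Finset.sum_div]
        refine Finset.sum_congr rfl fun i _ => ?_
        ring
      rw [e1, norm_div, Complex.norm_real, Real.norm_eq_abs, abs_of_pos hβ]
      have e2 : ‖∑ i ∈ s, (b i t - b i u) *
          Complex.exp (((lam i * t : ℝ) : ℂ) * Complex.I)‖ ≤ k * (Λ * ℓ) := by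
        refine (norm_sum_le _ _).trans ?_
        have e3 : ∀ i ∈ s, ‖(b i t - b i u) *
            Complex.exp (((lam i * t : ℝ) : ℂ) * Complex.I)‖ ≤ Λ * ℓ := by
          intro i hi
          rw [norm_mul, norm_exp_I, mul_one]
          refine (hLip i hi t u).trans (mul_le_mul_of_nonneg_left ?_ hΛ)
          rw [mem_Icc] at ht1
          rw [abs_le]; constructor <;> linarith
        refine (Finset.sum_le_card_nsmul _ _ _ e3).trans ?_
        rw [nsmul_eq_mul]
        exact mul_le_mul_of_nonneg_right (by exact_mod_cast hs) (by positivity)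
      have e4 : ‖BS s lam b t - ∑ i ∈ s, (b i t - b i u) *
          Complex.exp (((lam i * t : ℝ) : ℂ) * Complex.I)‖ ≤ 2 * e ^ N := by
        refine (norm_sub_le _ _).trans ?_
        linarith
      calc ‖BS s lam b t - ∑ i ∈ s, (b i t - b i u) *
            Complex.exp (((lam i * t : ℝ) : ℂ) * Complex.I)‖ / β ≤ 2 * e ^ N / β :=
            div_le_div_of_nonneg_right e4 hβ.le
        _ = (2 / β) * e ^ N := by ring
        _ ≤ κ * e ^ N := mul_le_mul_of_nonneg_right (le_max_right _ _) (by positivity)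
        _ ≤ κ ^ N * e ^ N := by
            refine mul_le_mul_of_nonneg_right ?_ (by positivity)
            calc κ = κ ^ 1 := (pow_one _).symm
              _ ≤ κ ^ N := pow_le_pow_right₀ hκ1 hN
        _ = (κ * e) ^ N := (mul_pow _ _ _).symm
    · congr 1; ring
  · push Not at hcase
    refine (measure_mono (fun t ht => ht.1)).trans ?_
    rw [Real.volume_Icc]
    apply ENNReal.ofReal_le_ofReal
    have h1 : 1 * (ℓ * 1) ≤ C * (ℓ * (κ * e)) :=
      mul_le_mul hC (mul_le_mul_of_nonneg_left hcase.le hℓ.le) (by positivity) (by linarith)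
    calc u + ℓ - u = 1 * (ℓ * 1) := by ring
      _ ≤ C * (ℓ * (κ * e)) := h1
      _ = _ := by ring

theorem partition_bound {P : ℝ → ℝ} (hP0 : ∀ t, 0 < P t)
    {E' : Set ℝ} (hE : MeasurableSet E') {a ℓ D : ℝ} (hℓ : 0 < ℓ) (hD : 0 ≤ D) (n : ℕ)
    (hvar : ∀ x ∈ Icc a (a + n * ℓ), ∀ y ∈ Icc a (a + n * ℓ), |x - y| ≤ ℓ → P x ≤ 2 * P y)
    (hvol : ∀ i < n, volume (E' ∩ Icc (a + i * ℓ) (a + i * ℓ + ℓ)) ≤ ENNReal.ofReal (D * ℓ)) :
    ∫⁻ t in E' ∩ Ico a (a + n * ℓ), ENNReal.ofReal (P t) ≤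
      ENNReal.ofReal (4 * D) * ∫⁻ t in Ico a (a + n * ℓ), ENNReal.ofReal (P t) := by
  induction n with
  | zero => simp
  | succ n ih =>
    set u : ℝ := a + n * ℓ with hu
    have hau : a ≤ u := by rw [hu]; have : 0 ≤ (n : ℝ) * ℓ := by positivity
                           linarith
    have hun : a + ((n + 1 : ℕ) : ℝ) * ℓ = u + ℓ := by rw [hu]; push_cast; ring
    rw [hun] at hvar ⊢
    have h1 : Ico a (u + ℓ) = Ico a u ∪ Ico u (u + ℓ) :=
      (Ico_union_Ico_eq_Ico hau (by linarith)).symm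
    have ih' := ih (fun x hx y hy => hvar x ⟨hx.1, by linarith [hx.2]⟩ y
      ⟨hy.1, by linarith [hy.2]⟩) (fun i hi => hvol i (by omega))
    have hdis : Disjoint (Ico a u) (Ico u (u + ℓ)) := by
      rw [Set.disjoint_left]
      intro x hx hx'
      exact absurd hx.2 (not_lt.2 hx'.1)
    rw [h1, inter_union_distrib_left, lintegral_union measurableSet_Ico hdis, mul_add]
    refine (lintegral_union_le _ _ _).trans (add_le_add ih' ?_)
    have huI : u ∈ Icc a (u + ℓ) := ⟨hau, by linarith⟩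
    have h2 : ∫⁻ t in E' ∩ Ico u (u + ℓ), ENNReal.ofReal (P t) ≤
        ENNReal.ofReal (2 * P u) * ENNReal.ofReal (D * ℓ) := by
      calc ∫⁻ t in E' ∩ Ico u (u + ℓ), ENNReal.ofReal (P t)
          ≤ ∫⁻ _t in E' ∩ Ico u (u + ℓ), ENNReal.ofReal (2 * P u) := by
            refine setLIntegral_mono' (hE.inter measurableSet_Ico) fun t ht => ?_
            apply ENNReal.ofReal_le_ofReal
            refine hvar t ⟨by linarith [ht.2.1], ht.2.2.le⟩ u huI ?_
            rw [abs_le]; constructor <;> linarith [ht.2.1, ht.2.2]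
        _ = ENNReal.ofReal (2 * P u) * volume (E' ∩ Ico u (u + ℓ)) := by
            rw [setLIntegral_const]
        _ ≤ _ := by
            refine mul_le_mul_right ((measure_mono ?_).trans (hvol n (by omega))) _
            exact inter_subset_inter_right _ Ico_subset_Icc_self
    refine h2.trans ?_
    have h3 : ENNReal.ofReal (P u / 2) * ENNReal.ofReal ℓ ≤
        ∫⁻ t in Ico u (u + ℓ), ENNReal.ofReal (P t) := by
      calc ENNReal.ofReal (P u / 2) * ENNReal.ofReal ℓ
          = ∫⁻ _t in Ico u (u + ℓ), ENNReal.ofReal (P u / 2) := by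
            rw [setLIntegral_const, Real.volume_Ico]; congr 2; ring
        _ ≤ _ := by
            refine setLIntegral_mono' measurableSet_Ico fun t ht => ?_
            apply ENNReal.ofReal_le_ofReal
            have := hvar u huI t ⟨by linarith [ht.1], ht.2.le⟩ (by
              rw [abs_sub_comm, abs_le]; constructor <;> linarith [ht.1, ht.2])
            linarith
    refine le_trans (le_of_eq ?_) (mul_le_mul_right h3 _)
    rw [← ENNReal.ofReal_mul (by linarith [hP0 u]), ← ENNReal.ofReal_mul (by linarith [hP0 u]),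
      ← ENNReal.ofReal_mul (by positivity)]
    congr 1; ring

theorem BS_continuous {s : Finset ℕ} (lam : ℕ → ℝ) {b : ℕ → ℝ → ℂ}
    (hb : ∀ i ∈ s, Continuous (b i)) : Continuous (BS s lam b) := by
  unfold BS
  exact continuous_finsetSum s fun i hi => (hb i hi).mul (by fun_prop)

theorem arc_bound {k N : ℕ} {C : ℝ} (hC : 1 ≤ C) (hN : 1 ≤ N) (h : SVP k C N) {x y : ℝ}
    (hxy : x < y) {P : ℝ → ℝ} (hP : Continuous P) (hP0 : ∀ t, 0 < P t) {Ptot : ℝ}
    (hPt0 : 0 ≤ Ptot) (hPtot : ∫⁻ t in Ico x y, ENNReal.ofReal (P t) ≤ ENNReal.ofReal Ptot)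
    {s : Finset ℕ} (hs : s.card ≤ k) {b : ℕ → ℝ → ℂ} {Λ : ℝ} (hΛ : 0 ≤ Λ)
    (hLip : ∀ i ∈ s, ∀ x y, ‖b i x - b i y‖ ≤ Λ * |x - y|) {j : ℕ} (hj : j ∈ s) {β : ℝ}
    (hβ : 0 < β) (hb : ∀ t ∈ Icc x y, β ≤ ‖b j t‖) {G : ℝ} (hG : 0 ≤ G) :
    ∃ g₀ : ℝ, 0 < g₀ ∧ ∀ lam : ℕ → ℝ,
      (∀ i ∈ s, ∀ i' ∈ s, i ≠ i' → g₀ ≤ |lam i - lam i'|) →
      (∀ m : ℕ, volume {t | t ∈ Icc x y ∧ ‖BS s lam b t‖ ≤ Real.exp (-(m : ℝ)) ^ N} ≤
        ENNReal.ofReal (G * Real.exp (-(m : ℝ)))) →
      ∫⁻ t in Ico x y, ENNReal.ofReal (P t) * ENNReal.ofReal (lm ‖BS s lam b t‖) ≤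
        ENNReal.ofReal (N * ((4 * (C * max 1 (2 / β)) * Ptot + 1) * geo)) := by
  -- bounds for the kernel
  obtain ⟨tmin, -, htmin⟩ := isCompact_Icc.exists_isMinOn (nonempty_Icc.2 hxy.le)
    hP.continuousOn
  obtain ⟨tmax, -, htmax⟩ := isCompact_Icc.exists_isMaxOn (nonempty_Icc.2 hxy.le)
    hP.continuousOn
  set p₀ := P tmin with hp₀
  set p₁ := P tmax with hp₁
  have hp0 : 0 < p₀ := hP0 _
  have hp1 : 0 < p₁ := hP0 _
  have hmin : ∀ t ∈ Icc x y, p₀ ≤ P t := fun t ht => htmin ht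
  have hmax : ∀ t ∈ Icc x y, P t ≤ p₁ := fun t ht => htmax ht
  -- uniform continuity
  obtain ⟨d, hd, hud⟩ := Metric.uniformContinuousOn_iff.1
    (isCompact_Icc.uniformContinuousOn_of_continuous (hP.continuousOn (s := Icc x y))) p₀ hp0
  -- the truncation level
  obtain ⟨m₀, hm₀⟩ : ∃ m₀ : ℕ, p₁ * G * Real.exp (-(m₀ : ℝ) / 2) ≤ 1 := by
    have h1 : Filter.Tendsto (fun m : ℕ => p₁ * G * Real.exp (-(m : ℝ) / 2)) Filter.atTop
        (nhds (p₁ * G * 0)) := geo_summable.tendsto_atTop_zero.const_mul _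
    rw [mul_zero] at h1
    obtain ⟨m₀, hm₀⟩ := (h1.eventually (Iio_mem_nhds (zero_lt_one))).exists
    exact ⟨m₀, le_of_lt hm₀⟩
  -- the number of pieces
  set E₀ : ℝ := Real.exp (-(m₀ : ℝ)) ^ N with hE₀
  have hE₀' : 0 < E₀ := by positivity
  obtain ⟨n, hn⟩ := exists_nat_gt (max ((y - x) / (d / 2)) ((k * Λ * (y - x)) / E₀ + 1))
  have hn1 : (1 : ℝ) < n := by
    refine lt_of_le_of_lt ?_ ((le_max_right _ _).trans_lt hn)
    have : 0 ≤ (k * Λ * (y - x)) / E₀ := by
      have : 0 ≤ y - x := by linarith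
      positivity
    linarith
  have hn0 : (0 : ℝ) < n := by linarith
  set ℓ : ℝ := (y - x) / n with hℓ
  have hℓ0 : 0 < ℓ := div_pos (by linarith) hn0
  have hℓd : ℓ < d := by
    have h1 : (y - x) / (d / 2) < n := (le_max_left _ _).trans_lt hn
    rw [div_lt_iff₀ (by positivity)] at h1
    rw [hℓ, div_lt_iff₀ hn0]
    nlinarith
  have hℓE : k * (Λ * ℓ) ≤ E₀ := by
    have h1 : (k * Λ * (y - x)) / E₀ < n := by
      have := (le_max_right _ _).trans_lt hn
      linarith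
    rw [div_lt_iff₀ hE₀'] at h1
    have h2 : k * (Λ * ℓ) = (k * Λ * (y - x)) / n := by rw [hℓ]; ring
    rw [h2, div_le_iff₀ hn0]
    linarith
  have hxn : x + n * ℓ = y := by rw [hℓ]; field_simp; ring
  refine ⟨2 * Real.pi / ℓ, by positivity, ?_⟩
  intro lam hsep hglob
  have hgℓ : 2 * Real.pi ≤ 2 * Real.pi / ℓ * ℓ := by
    rw [div_mul_cancel₀ _ hℓ0.ne']
  have hbc : ∀ i ∈ s, Continuous (b i) := by
    intro i hi
    have : LipschitzWith (Real.toNNReal Λ) (b i) := by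
      refine LipschitzWith.of_dist_le_mul fun u v => ?_
      rw [dist_eq_norm, Real.dist_eq, Real.coe_toNNReal _ hΛ]
      exact hLip i hi u v
    exact this.continuous
  have hBc : Continuous (BS s lam b) := BS_continuous lam hbc
  have hvar : ∀ u ∈ Icc x (x + n * ℓ), ∀ v ∈ Icc x (x + n * ℓ), |u - v| ≤ ℓ →
      P u ≤ 2 * P v := by
    rw [hxn]
    intro u hu v hv huv
    have h1 := hud u hu v hv (by rw [Real.dist_eq]; linarith)
    rw [Real.dist_eq] at h1
    have h2 := (abs_lt.1 h1).2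
    have h3 := hmin v hv
    linarith
  set κ : ℝ := max 1 (2 / β) with hκ
  have hκ1 : 1 ≤ κ := le_max_left _ _
  -- the bound of one layer
  have hlayer : ∀ m : ℕ, ∫⁻ t in {t | ‖BS s lam b t‖ ≤ Real.exp (-(m : ℝ)) ^ N} ∩ Ico x y,
      ENNReal.ofReal (P t) ≤
      ENNReal.ofReal ((4 * (C * κ) * Ptot + 1) * Real.exp (-(m : ℝ) / 2)) := by
    intro m
    have hme : MeasurableSet {t | ‖BS s lam b t‖ ≤ Real.exp (-(m : ℝ)) ^ N} :=
      measurableSet_le hBc.norm.measurable measurable_const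
    have hexp : Real.exp (-(m : ℝ)) ≤ Real.exp (-(m : ℝ) / 2) := by
      apply Real.exp_le_exp.2
      have : (0 : ℝ) ≤ m := Nat.cast_nonneg m
      linarith
    have hCκ : 0 ≤ 4 * (C * κ) * Ptot := by positivity
    rcases le_or_gt m m₀ with hm | hm
    · have hpb := partition_bound hP0 hme hℓ0 (D := C * κ * Real.exp (-(m : ℝ)))
        (by positivity) n hvar (fun i hi => by
          have hi' : (i : ℝ) + 1 ≤ n := by exact_mod_cast hi
          have hiℓ : (i : ℝ) * ℓ + ℓ ≤ n * ℓ := by nlinarith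
          have hi0 : 0 ≤ (i : ℝ) * ℓ := by positivity
          have hmono : E₀ ≤ Real.exp (-(m : ℝ)) ^ N := by
            rw [hE₀]
            refine pow_le_pow_left₀ (Real.exp_pos _).le (Real.exp_le_exp.2 ?_) N
            have : (m : ℝ) ≤ m₀ := by exact_mod_cast hm
            linarith
          have := local_SV hC hN h hs hΛ hLip hj hβ (u := x + i * ℓ) (ℓ := ℓ)
            (g := 2 * Real.pi / ℓ) (by positivity) hℓ0 hgℓ hsep
            (hb _ ⟨by linarith, by linarith [hxn]⟩) (m := m) (hℓE.trans hmono)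
          refine (measure_mono ?_).trans (this.trans (ENNReal.ofReal_le_ofReal (le_of_eq ?_)))
          · rintro t ⟨ht1, ht2⟩
            exact ⟨ht2, ht1⟩
          · ring)
      rw [hxn] at hpb
      refine hpb.trans ((mul_le_mul_right hPtot _).trans ?_)
      rw [← ENNReal.ofReal_mul (by positivity)]
      apply ENNReal.ofReal_le_ofReal
      have h1 : 4 * (C * κ * Real.exp (-(m : ℝ))) * Ptot =
          4 * (C * κ) * Ptot * Real.exp (-(m : ℝ)) := by ring
      rw [h1, add_mul, one_mul]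
      have h2 := mul_le_mul_of_nonneg_left hexp hCκ
      linarith [Real.exp_pos (-(m : ℝ) / 2)]
    · calc ∫⁻ t in {t | ‖BS s lam b t‖ ≤ Real.exp (-(m : ℝ)) ^ N} ∩ Ico x y,
            ENNReal.ofReal (P t)
          ≤ ∫⁻ _t in {t | ‖BS s lam b t‖ ≤ Real.exp (-(m : ℝ)) ^ N} ∩ Ico x y,
            ENNReal.ofReal p₁ :=
            setLIntegral_mono' (hme.inter measurableSet_Ico) fun t ht =>
              ENNReal.ofReal_le_ofReal (hmax t ⟨ht.2.1, ht.2.2.le⟩)
        _ = ENNReal.ofReal p₁ *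
            volume ({t | ‖BS s lam b t‖ ≤ Real.exp (-(m : ℝ)) ^ N} ∩ Ico x y) :=
            setLIntegral_const _ _
        _ ≤ ENNReal.ofReal p₁ * ENNReal.ofReal (G * Real.exp (-(m : ℝ))) := by
            refine mul_le_mul_right ((measure_mono ?_).trans (hglob m)) _
            rintro t ⟨ht1, ht2⟩
            exact ⟨Ico_subset_Icc_self ht2, ht1⟩
        _ = ENNReal.ofReal (p₁ * (G * Real.exp (-(m : ℝ)))) := by
            rw [ENNReal.ofReal_mul hp1.le]
        _ ≤ _ := by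
            apply ENNReal.ofReal_le_ofReal
            have h1 : Real.exp (-(m : ℝ)) =
                Real.exp (-(m : ℝ) / 2) * Real.exp (-(m : ℝ) / 2) := by
              rw [← Real.exp_add]; congr 1; ring
            have h2 : Real.exp (-(m : ℝ) / 2) ≤ Real.exp (-(m₀ : ℝ) / 2) := by
              apply Real.exp_le_exp.2
              have : (m₀ : ℝ) ≤ m := by exact_mod_cast hm.le
              linarith
            have h3 : p₁ * G * Real.exp (-(m : ℝ) / 2) ≤ 1 :=
              (mul_le_mul_of_nonneg_left h2 (by positivity)).trans hm₀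
            have h4 : p₁ * (G * Real.exp (-(m : ℝ))) =
                (p₁ * G * Real.exp (-(m : ℝ) / 2)) * Real.exp (-(m : ℝ) / 2) := by
              rw [h1]; ring
            rw [h4, add_mul]
            have h5 := mul_le_mul_of_nonneg_right h3 (Real.exp_pos (-(m : ℝ) / 2)).le
            have h6 := mul_nonneg hCκ (Real.exp_pos (-(m : ℝ) / 2)).le
            linarith
  refine (layer_int (p := fun t => ENNReal.ofReal (P t)) hP.measurable.ennreal_ofReal
    hBc.measurable (Ico x y) hN).trans ?_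
  refine (mul_le_mul_right (ENNReal.tsum_le_tsum hlayer) _).trans (le_of_eq ?_)
  rw [geo_tsum (by positivity), ENNReal.ofReal_mul (Nat.cast_nonneg N), ENNReal.ofReal_natCast]

end Pool.Agent.Helper96.Salem
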