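import Pool.Agent.Helper96.Salem.Main

/-!
# MP_9062f4_nt: limit points of Salem numbers with a bounded number of terms

For every `k`, the only possible limit points of the set of Salem numbers `τ` which are a root and
the Mahler measure of an integer polynomial with at most `k` nonzero coefficients are `1` and the
Pisot numbers.  Every Salem number is in one of these sets.
-/

namespace Pool.Agent.Helper96.Salem.BoundedTerms

open Polynomial Filter Topology

/-- A Salem number: a real algebraic integer `τ > 1` all of whose conjugates other than `τ` have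
absolute value at most `1`, at least one of them being of absolute value `1`. -/
def IsSalem (τ : ℝ) : Prop :=
  IsIntegral ℤ τ ∧ 1 < τ ∧
    (∀ z : ℂ, aeval z (minpoly ℚ τ) = 0 → z ≠ (τ : ℂ) → ‖z‖ ≤ 1) ∧
    (∃ z : ℂ, aeval z (minpoly ℚ τ) = 0 ∧ ‖z‖ = 1)

/-- A Pisot number: a real algebraic integer `θ > 1` all of whose conjugates other than `θ` have
absolute value less than `1`. -/
def IsPisot (θ : ℝ) : Prop :=
  IsIntegral ℤ θ ∧ 1 < θ ∧ ∀ z : ℂ, aeval z (minpoly ℚ θ) = 0 → z ≠ (θ : ℂ) → ‖z‖ < 1

/-- `SalemTerms k` is the set of the Salem numbers `τ` for which there is a nonzero integer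
polynomial `F` with at most `k` nonzero coefficients, `F(τ) = 0` and Mahler measure `τ`. -/
def SalemTerms (k : ℕ) : Set ℝ :=
  {τ | IsSalem τ ∧ ∃ F : ℤ[X], F ≠ 0 ∧ F.support.card ≤ k ∧ aeval τ F = 0 ∧
    (F.map (Int.castRingHom ℂ)).mahlerMeasure = τ}

theorem mem_terms {τ : ℝ} (h : IsSalem τ) : ∃ k, τ ∈ SalemTerms k := by
  obtain ⟨hint, h1, h2, h3⟩ := h
  refine ⟨(minpoly ℤ τ).support.card, ⟨hint, h1, h2, h3⟩, minpoly ℤ τ, minpoly.ne_zero hint,
    le_rfl, minpoly.aeval ℤ τ, ?_⟩
  have hmap : minpoly ℚ τ = (minpoly ℤ τ).map (algebraMap ℤ ℚ) :=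
    minpoly.isIntegrallyClosed_eq_field_fractions' ℚ hint
  have hintQ : IsIntegral ℚ τ := hint.tower_top
  set P : ℂ[X] := (minpoly ℤ τ).map (Int.castRingHom ℂ) with hP
  have hPQ : P = (minpoly ℚ τ).map (algebraMap ℚ ℂ) := by
    rw [hmap, Polynomial.map_map, hP]
    congr 1
  have hmonic : P.Monic := (minpoly.monic hint).map _
  have hsep : P.Separable := by
    rw [hPQ]
    exact (minpoly.irreducible hintQ).separable.map
  have hP0 : P ≠ 0 := hmonic.ne_zero
  have hnodup : P.roots.Nodup := nodup_roots hsep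
  have hroot : ∀ z, z ∈ P.roots ↔ aeval z (minpoly ℚ τ) = 0 := by
    intro z
    rw [mem_roots hP0, IsRoot, hPQ, eval_map, aeval_def]
  have hτ : (τ : ℂ) ∈ P.roots := by
    rw [hroot]
    have := aeval_algebraMap_apply ℂ τ (minpoly ℚ τ)
    rw [minpoly.aeval, map_zero] at this
    exact this
  rw [mahlerMeasure_eq_leadingCoeff_mul_prod_roots, hmonic.leadingCoeff, norm_one, one_mul]
  have h4 : (P.roots.map fun a => max 1 ‖a‖).prod = ∏ a ∈ P.roots.toFinset, max 1 ‖a‖ := by
    rw [Finset.prod, Multiset.toFinset_val, hnodup.dedup]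
  rw [h4, Finset.prod_eq_single (τ : ℂ)]
  · rw [Complex.norm_real, Real.norm_eq_abs, abs_of_pos (by linarith), max_eq_right h1.le]
  · intro b hb hbne
    rw [Multiset.mem_toFinset, hroot] at hb
    exact max_eq_left (h2 b hb hbne)
  · intro hn
    exact absurd (Multiset.mem_toFinset.2 hτ) hn

/-- For every `k`, every limit point of the set of the Salem numbers that are a root and the Mahler
measure of an integer polynomial with at most `k` nonzero coefficients is `1` or a Pisot number;
and every Salem number is in this set for some `k`. -/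
theorem result :
    (∀ (k : ℕ) (c : ℝ), AccPt c (𝓟 (SalemTerms k)) → c = 1 ∨ IsPisot c) ∧
    (∀ τ : ℝ, IsSalem τ → ∃ k, τ ∈ SalemTerms k) := by
  refine ⟨fun k c h => ?_, fun τ h => mem_terms h⟩
  refine Pool.Agent.Helper96.Salem.limit_pisot k c (h.mono (principal_mono.2 ?_))
  rintro τ ⟨hS, hF⟩
  exact ⟨hS.2.1, hF⟩

end Pool.Agent.Helper96.Salem.BoundedTerms
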