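import Mathlib

/-!
Block decomposition of polynomials with a bounded number of terms along an ultrafilter.
-/

namespace Pool.Agent.Helper96.Salem

open Polynomial Filter Topology

theorem rep_terms (k : ℕ) : ∀ (G : ℤ[X]) (H : ℤ), 0 ≤ H → G.support.card ≤ k →
    (∀ i, |G.coeff i| ≤ H) → ∃ (a : ℕ → ℤ) (m : ℕ → ℕ),
      G = ∑ i ∈ Finset.range k, C (a i) * X ^ (m i) ∧ ∀ i, |a i| ≤ H := by
  induction k with
  | zero =>
    intro G H hH hc _
    refine ⟨fun _ => 0, fun _ => 0, ?_, fun _ => by simpa using hH⟩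
    rw [Nat.le_zero, card_support_eq_zero] at hc
    rw [hc]; simp
  | succ k ih =>
    intro G H hH hc hb
    have h1 : G.eraseLead.support.card ≤ k := by rw [card_support_eraseLead]; omega
    obtain ⟨a, m, h2, h3⟩ := ih G.eraseLead H hH h1 (fun i => by
      rw [eraseLead_coeff]
      split_ifs
      · simpa using hH
      · exact hb i)
    refine ⟨fun i => if i < k then a i else G.leadingCoeff,
      fun i => if i < k then m i else G.natDegree, ?_, ?_⟩
    · rw [Finset.sum_range_succ]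
      have h4 : ∑ i ∈ Finset.range k, C (if i < k then a i else G.leadingCoeff) *
          X ^ (if i < k then m i else G.natDegree) = G.eraseLead := by
        rw [h2]
        refine Finset.sum_congr rfl fun i hi => ?_
        rw [Finset.mem_range] at hi
        rw [if_pos hi, if_pos hi]
      rw [h4]
      simp only [lt_irrefl, if_false]
      exact (eraseLead_add_C_mul_X_pow G).symm
    · intro i
      simp only
      split_ifs
      · exact h3 i
      · exact hb _

section Ultra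

variable {α : Type*} (U : Ultrafilter α)

theorem uf_const (f : α → ℤ) (M : ℤ) (h : ∀ᶠ x in (U : Filter α), |f x| ≤ M) :
    ∃ a, ∀ᶠ x in (U : Filter α), f x = a := by
  have h1 : ∀ᶠ x in (U : Filter α), ∃ a ∈ Set.Icc (-M) M, f x = a :=
    h.mono fun x hx => ⟨f x, abs_le.1 hx, rfl⟩
  rw [Ultrafilter.eventually_exists_mem_iff (Set.finite_Icc _ _)] at h1
  obtain ⟨a, -, ha⟩ := h1
  exact ⟨a, ha⟩

/-- a function is eventually constant or tends to infinity -/
theorem uf_dich (f : α → ℤ) (h : ¬ ∃ a, ∀ᶠ x in (U : Filter α), f x = a) (M : ℤ) :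
    ∀ᶠ x in (U : Filter α), M ≤ |f x| := by
  by_contra hcon
  have h1 : ∀ᶠ x in (U : Filter α), ¬ M ≤ |f x| := (Ultrafilter.eventually_not).2 hcon
  exact h (uf_const U f M (h1.mono fun x hx => (not_le.1 hx).le))

variable (m : ℕ → α → ℕ)

/-- the difference of the exponents is eventually constant -/
def Rel (i j : ℕ) : Prop := ∃ d : ℤ, ∀ᶠ x in (U : Filter α), (m i x : ℤ) - m j x = d

variable {U m}

theorem Rel.refl (i : ℕ) : Rel U m i i := ⟨0, Eventually.of_forall fun _ => sub_self _⟩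

theorem Rel.symm {i j : ℕ} (h : Rel U m i j) : Rel U m j i := by
  obtain ⟨d, hd⟩ := h
  exact ⟨-d, hd.mono fun x hx => by linarith⟩

theorem Rel.trans {i j l : ℕ} (h : Rel U m i j) (h' : Rel U m j l) : Rel U m i l := by
  obtain ⟨d, hd⟩ := h
  obtain ⟨d', hd'⟩ := h'
  exact ⟨d + d', (hd.and hd').mono fun x hx => by linarith [hx.1, hx.2]⟩

variable (U m)

/-- representative of the class of `i` -/
noncomputable def rp (i : ℕ) : ℕ := sInf {j | Rel U m i j}

theorem rp_rel (i : ℕ) : Rel U m i (rp U m i) :=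
  Nat.sInf_mem (s := {j | Rel U m i j}) ⟨i, Rel.refl i⟩

theorem rp_le (i : ℕ) : rp U m i ≤ i := Nat.sInf_le (Rel.refl i)

theorem rp_eq {i j : ℕ} (h : Rel U m i j) : rp U m i = rp U m j := by
  unfold rp
  congr 1
  ext l
  exact ⟨fun h' => h.symm.trans h', fun h' => h.trans h'⟩

/-- the constant difference -/
noncomputable def dd (i : ℕ) : ℤ := Classical.choose (rp_rel U m i)

theorem dd_spec (i : ℕ) : ∀ᶠ x in (U : Filter α), (m i x : ℤ) - m (rp U m i) x = dd U m i :=
  Classical.choose_spec (rp_rel U m i)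

/-- the indices of the blocks -/
noncomputable def blocks (k : ℕ) : Finset ℕ := (Finset.range k).image (rp U m)

theorem blocks_card (k : ℕ) : (blocks U m k).card ≤ k := by
  refine Finset.card_image_le.trans ?_
  rw [Finset.card_range]

theorem blocks_gap {k : ℕ} (M : ℤ) : ∀ᶠ x in (U : Filter α), ∀ i ∈ blocks U m k,
    ∀ j ∈ blocks U m k, i ≠ j → M ≤ |(m i x : ℤ) - m j x| := by
  rw [Filter.eventually_all_finset]
  intro i hi
  rw [Filter.eventually_all_finset]
  intro j hj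
  by_cases hij : i = j
  · exact Eventually.of_forall fun x h => absurd hij h
  · obtain ⟨i', -, rfl⟩ := Finset.mem_image.1 hi
    obtain ⟨j', -, rfl⟩ := Finset.mem_image.1 hj
    refine (uf_dich U (fun x => (m (rp U m i') x : ℤ) - m (rp U m j') x) ?_ M).mono
      fun x hx _ => hx
    intro h
    have h1 : Rel U m (rp U m i') (rp U m j') := h
    exact hij (rp_eq U m (((rp_rel U m i').trans h1).trans (rp_rel U m j').symm))

/-- value of a block -/
noncomputable def Bl (a : ℕ → ℤ) (k j : ℕ) (z : ℂ) : ℂ :=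
  ∑ i ∈ (Finset.range k).filter (fun i => rp U m i = j), (a i : ℂ) * z ^ (dd U m i)

theorem eval_terms (a : ℕ → ℤ) (e : ℕ → ℕ) (s : Finset ℕ) (z : ℂ) :
    ((∑ i ∈ s, C (a i) * X ^ (e i) : ℤ[X]).map (Int.castRingHom ℂ)).eval z =
      ∑ i ∈ s, (a i : ℂ) * z ^ (e i) := by
  rw [Polynomial.map_sum, eval_finsetSum]
  refine Finset.sum_congr rfl fun i _ => ?_
  simp

theorem eval_blocks {G : α → ℤ[X]} {k : ℕ} {a : ℕ → ℤ}
    (hG : ∀ᶠ x in (U : Filter α), G x = ∑ i ∈ Finset.range k, C (a i) * X ^ (m i x)) :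
    ∀ᶠ x in (U : Filter α), ∀ z : ℂ, z ≠ 0 → ((G x).map (Int.castRingHom ℂ)).eval z =
      ∑ j ∈ blocks U m k, z ^ (m j x) * Bl U m a k j z := by
  have h1 : ∀ᶠ x in (U : Filter α), ∀ i ∈ Finset.range k,
      (m i x : ℤ) - m (rp U m i) x = dd U m i := by
    rw [Filter.eventually_all_finset]
    exact fun i _ => dd_spec U m i
  filter_upwards [hG, h1] with x hx hd z hz
  rw [hx, eval_terms, blocks, ← Finset.sum_fiberwise_of_maps_to
    (fun i hi => Finset.mem_image_of_mem (rp U m) hi)]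
  refine Finset.sum_congr rfl fun j _ => ?_
  rw [Bl, Finset.mul_sum]
  refine Finset.sum_congr rfl fun i hi => ?_
  rw [Finset.mem_filter] at hi
  have h2 := hd i hi.1
  rw [hi.2] at h2
  have h3 : (z : ℂ) ^ (m i x) = z ^ (m j x) * z ^ (dd U m i) := by
    rw [← zpow_natCast z (m i x), ← zpow_natCast z (m j x), ← zpow_add₀ hz]
    congr 1
    linarith
  rw [h3]; ring

open Classical in
/-- the indices with eventually constant exponents -/
noncomputable def I0 (k : ℕ) : Finset ℕ :=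
  (Finset.range k).filter (fun i => ∃ n : ℕ, ∀ᶠ x in (U : Filter α), m i x = n)

open Classical in
/-- the constant exponents -/
noncomputable def nn (i : ℕ) : ℕ :=
  if h : ∃ n : ℕ, ∀ᶠ x in (U : Filter α), m i x = n then Classical.choose h else 0

theorem mem_I0 {k i : ℕ} : i ∈ I0 U m k ↔
    i ∈ Finset.range k ∧ ∃ n : ℕ, ∀ᶠ x in (U : Filter α), m i x = n := by
  classical
  simp only [I0, Finset.mem_filter]

theorem nn_spec {k i : ℕ} (hi : i ∈ I0 U m k) : ∀ᶠ x in (U : Filter α), m i x = nn U m i := by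
  have h : ∃ n : ℕ, ∀ᶠ x in (U : Filter α), m i x = n := ((mem_I0 U m).1 hi).2
  unfold nn
  rw [dif_pos h]
  exact Classical.choose_spec h

theorem not_I0 {k i : ℕ} (hi : i ∈ Finset.range k) (hi' : i ∉ I0 U m k) (M : ℕ) :
    ∀ᶠ x in (U : Filter α), M ≤ m i x := by
  have h1 : ¬ ∃ a : ℤ, ∀ᶠ x in (U : Filter α), (m i x : ℤ) = a := by
    rintro ⟨a, ha⟩
    apply hi'
    rw [mem_I0]
    refine ⟨hi, a.toNat, ha.mono fun x hx => ?_⟩
    rw [← hx]; simp
  refine (uf_dich U (fun x => (m i x : ℤ)) h1 M).mono fun x hx => ?_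
  rw [abs_of_nonneg (Int.natCast_nonneg _)] at hx
  exact_mod_cast hx

/-- the limit polynomial -/
noncomputable def LP (a : ℕ → ℤ) (k : ℕ) : ℤ[X] :=
  ∑ i ∈ I0 U m k, C (a i) * X ^ (nn U m i)

theorem unif_conv {G : α → ℤ[X]} {k : ℕ} {a : ℕ → ℤ}
    (hG : ∀ᶠ x in (U : Filter α), G x = ∑ i ∈ Finset.range k, C (a i) * X ^ (m i x))
    {q ε : ℝ} (hq0 : 0 ≤ q) (hq : q < 1) (hε : 0 < ε) :
    ∀ᶠ x in (U : Filter α), ∀ z : ℂ, ‖z‖ ≤ q → ‖((G x).map (Int.castRingHom ℂ)).eval z -
      ((LP U m a k).map (Int.castRingHom ℂ)).eval z‖ ≤ ε := by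
  have hsub : I0 U m k ⊆ Finset.range k := fun i hi => ((mem_I0 U m).1 hi).1
  have h1 : ∀ᶠ x in (U : Filter α), ∀ i ∈ I0 U m k, m i x = nn U m i := by
    rw [Filter.eventually_all_finset]
    exact fun i hi => nn_spec U m hi
  set S : ℝ := ∑ i ∈ Finset.range k, |(a i : ℝ)| with hS
  have hS0 : 0 ≤ S := Finset.sum_nonneg fun i _ => abs_nonneg _
  obtain ⟨M, hM⟩ : ∃ M : ℕ, S * q ^ M ≤ ε := by
    have h2 : Tendsto (fun M : ℕ => S * q ^ M) atTop (𝓝 (S * 0)) :=
      (tendsto_pow_atTop_nhds_zero_of_lt_one hq0 hq).const_mul S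
    rw [mul_zero] at h2
    obtain ⟨M, hM⟩ := (h2.eventually (Iio_mem_nhds hε)).exists
    exact ⟨M, le_of_lt hM⟩
  have h3 : ∀ᶠ x in (U : Filter α), ∀ i ∈ Finset.range k \ I0 U m k, M ≤ m i x := by
    rw [Filter.eventually_all_finset]
    intro i hi
    rw [Finset.mem_sdiff] at hi
    exact not_I0 U m hi.1 hi.2 M
  filter_upwards [hG, h1, h3] with x hx hx1 hx3 z hz
  rw [hx, eval_terms, LP, eval_terms, ← Finset.sum_sdiff hsub]
  have h4 : ∑ i ∈ I0 U m k, (a i : ℂ) * z ^ (m i x) =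
      ∑ i ∈ I0 U m k, (a i : ℂ) * z ^ (nn U m i) :=
    Finset.sum_congr rfl fun i hi => by rw [hx1 i hi]
  rw [h4, add_sub_cancel_right]
  refine (norm_sum_le _ _).trans ?_
  calc ∑ i ∈ Finset.range k \ I0 U m k, ‖(a i : ℂ) * z ^ (m i x)‖
      ≤ ∑ i ∈ Finset.range k \ I0 U m k, |(a i : ℝ)| * q ^ M := by
        refine Finset.sum_le_sum fun i hi => ?_
        rw [norm_mul, norm_pow, Complex.norm_intCast]
        refine mul_le_mul_of_nonneg_left ?_ (abs_nonneg _)
        calc ‖z‖ ^ (m i x) ≤ q ^ (m i x) := pow_le_pow_left₀ (norm_nonneg _) hz _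
          _ ≤ q ^ M := pow_le_pow_of_le_one hq0 hq.le (hx3 i hi)
    _ ≤ ∑ i ∈ Finset.range k, |(a i : ℝ)| * q ^ M :=
        Finset.sum_le_sum_of_subset_of_nonneg Finset.sdiff_subset
          fun i _ _ => mul_nonneg (abs_nonneg _) (pow_nonneg hq0 _)
    _ = S * q ^ M := by rw [← Finset.sum_mul]
    _ ≤ ε := hM

end Ultra

end Pool.Agent.Helper96.Salem
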