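import Pool.Agent.Helper96.Salem.SV

/-!
Layer cake bounds for the negative part of the logarithm of an exponential sum.
-/

namespace Pool.Agent.Helper96.Salem

open MeasureTheory Set

/-- negative part of the logarithm -/
noncomputable def lm (x : ℝ) : ℝ := max (-Real.log x) 0

theorem lm_nonneg (x : ℝ) : 0 ≤ lm x := le_max_right _ _

theorem lm_measurable : Measurable lm := by
  unfold lm
  exact (Real.measurable_log.neg).max measurable_const

theorem lm_layer {N : ℕ} (hN : 1 ≤ N) {x : ℝ} (hx : 0 ≤ x) :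
    ENNReal.ofReal (lm x) ≤
      (N : ENNReal) * ∑' m : ℕ, if x ≤ Real.exp (-(m : ℝ)) ^ N then 1 else 0 := by
  by_cases hl : -Real.log x ≤ 0
  · rw [lm, max_eq_right hl, ENNReal.ofReal_zero]; exact zero_le
  · push Not at hl
    have hx0 : 0 < x := by
      rcases hx.lt_or_eq with h | h
      · exact h
      · rw [← h, Real.log_zero] at hl; linarith
    have hN' : (0 : ℝ) < N := by exact_mod_cast hN
    set y : ℝ := -Real.log x / N with hy
    have hy0 : 0 ≤ y := by positivity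
    have h1 : ∀ m ∈ Finset.range (⌊y⌋₊ + 1),
        (if x ≤ Real.exp (-(m : ℝ)) ^ N then (1 : ENNReal) else 0) = 1 := by
      intro m hm
      rw [Finset.mem_range, Nat.lt_succ_iff] at hm
      have h2 : (m : ℝ) ≤ y := (Nat.cast_le.2 hm).trans (Nat.floor_le hy0)
      rw [if_pos]
      rw [← Real.exp_nat_mul, ← Real.log_le_iff_le_exp hx0]
      have h3 : (m : ℝ) * N ≤ -Real.log x := by
        rw [hy, le_div_iff₀ hN'] at h2; exact h2
      linarith
    have h4 : ((⌊y⌋₊ + 1 : ℕ) : ENNReal) ≤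
        ∑' m : ℕ, if x ≤ Real.exp (-(m : ℝ)) ^ N then (1 : ENNReal) else 0 := by
      calc ((⌊y⌋₊ + 1 : ℕ) : ENNReal) = ∑ m ∈ Finset.range (⌊y⌋₊ + 1),
            (if x ≤ Real.exp (-(m : ℝ)) ^ N then (1 : ENNReal) else 0) := by
            rw [Finset.sum_congr rfl h1]; simp
        _ ≤ _ := ENNReal.sum_le_tsum _
    refine le_trans ?_ (mul_le_mul_right h4 _)
    rw [lm, max_eq_left hl.le]
    have h5 : -Real.log x ≤ N * ((⌊y⌋₊ + 1 : ℕ) : ℝ) := by
      have h6 : y ≤ ((⌊y⌋₊ + 1 : ℕ) : ℝ) := by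
        push_cast
        exact (Nat.lt_floor_add_one y).le
      have h7 : -Real.log x = N * y := by rw [hy]; field_simp
      rw [h7]
      exact mul_le_mul_of_nonneg_left h6 hN'.le
    refine (ENNReal.ofReal_le_ofReal h5).trans (le_of_eq ?_)
    rw [ENNReal.ofReal_mul hN'.le, ENNReal.ofReal_natCast, ENNReal.ofReal_natCast]

theorem layer_int {p : ℝ → ENNReal} (hp : Measurable p) {f : ℝ → ℂ} (hf : Measurable f)
    (S : Set ℝ) {N : ℕ} (hN : 1 ≤ N) :
    ∫⁻ t in S, p t * ENNReal.ofReal (lm ‖f t‖) ≤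
      (N : ENNReal) * ∑' m : ℕ, ∫⁻ t in {t | ‖f t‖ ≤ Real.exp (-(m : ℝ)) ^ N} ∩ S, p t := by
  have hms : ∀ m : ℕ, MeasurableSet {t | ‖f t‖ ≤ Real.exp (-(m : ℝ)) ^ N} := fun m =>
    measurableSet_le hf.norm measurable_const
  have h1 : ∀ t, p t * ENNReal.ofReal (lm ‖f t‖) ≤ (N : ENNReal) * ∑' m : ℕ,
      {t | ‖f t‖ ≤ Real.exp (-(m : ℝ)) ^ N}.indicator p t := by
    intro t
    refine (mul_le_mul_right (lm_layer hN (norm_nonneg (f t))) _).trans (le_of_eq ?_)
    rw [mul_left_comm, ← ENNReal.tsum_mul_left]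
    congr 1
    refine tsum_congr fun m => ?_
    by_cases h : ‖f t‖ ≤ Real.exp (-(m : ℝ)) ^ N
    · rw [if_pos h, indicator_of_mem (show t ∈ {t | ‖f t‖ ≤ Real.exp (-(m : ℝ)) ^ N} from h),
        mul_one]
    · rw [if_neg h, indicator_of_notMem (show t ∉ {t | ‖f t‖ ≤ Real.exp (-(m : ℝ)) ^ N} from h),
        mul_zero]
  refine (lintegral_mono h1).trans (le_of_eq ?_)
  rw [lintegral_const_mul _ (Measurable.ennreal_tsum fun m => hp.indicator (hms m)),
    lintegral_tsum fun m => (hp.indicator (hms m)).aemeasurable]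
  congr 1
  refine tsum_congr fun m => ?_
  rw [setLIntegral_indicator (hms m)]

/-- the sum of the geometric series used below -/
noncomputable def geo : ℝ := ∑' m : ℕ, Real.exp (-(m : ℝ) / 2)

theorem geo_summable : Summable fun m : ℕ => Real.exp (-(m : ℝ) / 2) := by
  have h1 : (fun m : ℕ => Real.exp (-(m : ℝ) / 2)) = fun m : ℕ => Real.exp (-(1 / 2)) ^ m := by
    funext m
    rw [← Real.exp_nat_mul]; congr 1; ring
  rw [h1]
  refine summable_geometric_of_lt_one (Real.exp_pos _).le ?_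
  rw [Real.exp_lt_one_iff]; norm_num

theorem geo_nonneg : 0 ≤ geo := tsum_nonneg fun _ => (Real.exp_pos _).le

theorem geo_tsum {D : ℝ} (hD : 0 ≤ D) :
    ∑' m : ℕ, ENNReal.ofReal (D * Real.exp (-(m : ℝ) / 2)) = ENNReal.ofReal (D * geo) := by
  rw [geo, ← tsum_mul_left, ENNReal.ofReal_tsum_of_nonneg
    (fun m => mul_nonneg hD (Real.exp_pos _).le) (geo_summable.mul_left D)]

end Pool.Agent.Helper96.Salem
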