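import Pool.Agent.Helper96.Salem.Poisson

/-!
Lower bounds for polynomials with a bounded number of terms and one root in the unit disc.
-/

namespace Pool.Agent.Helper96.Salem

open MeasureTheory Set Polynomial

theorem two_pi_pos : (0 : ℝ) < 2 * Real.pi := by have := Real.pi_pos; linarith

theorem PA_lower {w : ℂ} (hw : ‖w‖ < 1) {R : ℂ[X]} {T : ℝ} (hT : 0 ≤ T)
    (h : ∫⁻ t in Ico 0 (2 * Real.pi), ENNReal.ofReal (PK w (circleMap 0 1 t)) *
      ENNReal.ofReal (lm ‖R.eval (circleMap 0 1 t)‖) ≤ ENNReal.ofReal T) :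
    -(T / (2 * Real.pi)) ≤ PA w R := by
  have hint := PK_integrable_log hw R
  rw [intervalIntegrable_iff_integrableOn_Ioc_of_le two_pi_pos.le] at hint
  set f : ℝ → ℝ := fun t => PK w (circleMap 0 1 t) * Real.log ‖R.eval (circleMap 0 1 t)‖ with hf
  have h1 : -T ≤ ∫ t in Ioc 0 (2 * Real.pi), f t := by
    rw [integral_eq_lintegral_pos_part_sub_lintegral_neg_part hint]
    have h2 : ∫⁻ t in Ioc 0 (2 * Real.pi), ENNReal.ofReal (-f t) ≤ ENNReal.ofReal T := by
      refine le_trans ?_ h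
      rw [restrict_Ico_eq_restrict_Ioc]
      refine lintegral_mono fun t => ?_
      rw [← ENNReal.ofReal_mul (PK_pos hw t).le]
      apply ENNReal.ofReal_le_ofReal
      rw [hf]
      have : -(PK w (circleMap 0 1 t) * Real.log ‖R.eval (circleMap 0 1 t)‖) =
          PK w (circleMap 0 1 t) * (-Real.log ‖R.eval (circleMap 0 1 t)‖) := by ring
      rw [this]
      exact mul_le_mul_of_nonneg_left (le_max_left _ _) (PK_pos hw t).le
    have h3 := ENNReal.toReal_mono ENNReal.ofReal_ne_top h2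
    rw [ENNReal.toReal_ofReal hT] at h3
    have h4 : 0 ≤ (∫⁻ t in Ioc 0 (2 * Real.pi), ENNReal.ofReal (f t)).toReal :=
      ENNReal.toReal_nonneg
    linarith
  unfold PA
  rw [Real.circleAverage_def, intervalIntegral.integral_of_le two_pi_pos.le, smul_eq_mul,
    neg_div', div_eq_inv_mul]
  exact mul_le_mul_of_nonneg_left h1 (by positivity)

theorem PK_lintegral {w : ℂ} (hw : ‖w‖ < 1) :
    ∫⁻ t in Ico 0 (2 * Real.pi), ENNReal.ofReal (PK w (circleMap 0 1 t)) =
      ENNReal.ofReal (2 * Real.pi) := by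
  have hint : IntervalIntegrable (fun t => PK w (circleMap 0 1 t)) volume 0 (2 * Real.pi) :=
    (PK_continuous hw).intervalIntegrable _ _
  rw [intervalIntegrable_iff_integrableOn_Ioc_of_le two_pi_pos.le] at hint
  rw [restrict_Ico_eq_restrict_Ioc, ← ofReal_integral_eq_lintegral_ofReal hint
    (Filter.Eventually.of_forall fun t => (PK_pos hw t).le)]
  have h := PK_avg hw
  rw [Real.circleAverage_def, intervalIntegral.integral_of_le two_pi_pos.le, smul_eq_mul,
    inv_mul_eq_iff_eq_mul₀ two_pi_pos.ne', mul_one] at h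
  rw [h]

theorem lm_factor {τ : ℝ} (hτ : 1 < τ) {R : ℂ[X]} {z : ℂ} (hz : ‖z‖ = 1) :
    lm ‖R.eval z‖ ≤ lm ‖((1 - C (τ : ℂ) * X) * R).eval z‖ + Real.log (1 + τ) := by
  have hlog : 0 ≤ Real.log (1 + τ) := Real.log_nonneg (by linarith)
  rw [eval_mul, eval_sub, eval_one, eval_mul, eval_C, eval_X, norm_mul]
  have h1 : ‖1 - (τ : ℂ) * z‖ ≤ 1 + τ := by
    refine (norm_sub_le _ _).trans ?_
    rw [norm_one, norm_mul, hz, mul_one, Complex.norm_real, Real.norm_eq_abs,
      abs_of_pos (by linarith)]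
  have h0 : 0 < ‖1 - (τ : ℂ) * z‖ := by
    rw [norm_pos_iff]
    intro h
    rw [sub_eq_zero] at h
    have h2 : ‖(1 : ℂ)‖ = ‖(τ : ℂ) * z‖ := by rw [← h]
    rw [norm_one, norm_mul, hz, mul_one, Complex.norm_real, Real.norm_eq_abs,
      abs_of_pos (by linarith)] at h2
    linarith
  by_cases hR : R.eval z = 0
  · rw [hR]
    simp only [norm_zero, mul_zero]
    linarith
  · have hR' : 0 < ‖R.eval z‖ := norm_pos_iff.2 hR
    unfold lm
    rw [Real.log_mul h0.ne' hR'.ne']
    have h2 : Real.log ‖1 - (τ : ℂ) * z‖ ≤ Real.log (1 + τ) := Real.log_le_log h0 h1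
    refine max_le ?_ ?_
    · have := le_max_left (-(Real.log ‖1 - (τ : ℂ) * z‖ + Real.log ‖R.eval z‖)) 0
      linarith
    · have := le_max_right (-(Real.log ‖1 - (τ : ℂ) * z‖ + Real.log ‖R.eval z‖)) 0
      linarith

/-- the key inequality -/
theorem key_ineq {w : ℂ} (hw : ‖w‖ < 1) {τ : ℝ} (hτ : 1 < τ) {R : ℂ[X]} (hR : R ≠ 0)
    (hroots : ∀ a, R.eval a = 0 → 1 ≤ ‖a‖) {T : ℝ} (hT : 0 ≤ T)
    (h : ∫⁻ t in Ico 0 (2 * Real.pi), ENNReal.ofReal (PK w (circleMap 0 1 t)) *
      ENNReal.ofReal (lm ‖((1 - C (τ : ℂ) * X) * R).eval (circleMap 0 1 t)‖) ≤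
        ENNReal.ofReal T) :
    ‖1 - (τ : ℂ) * w‖ * (Real.exp (-(T / (2 * Real.pi))) / (1 + τ)) ≤
      ‖((1 - C (τ : ℂ) * X) * R).eval w‖ := by
  have hlog : 0 ≤ Real.log (1 + τ) := Real.log_nonneg (by linarith)
  have h1 : ∫⁻ t in Ico 0 (2 * Real.pi), ENNReal.ofReal (PK w (circleMap 0 1 t)) *
      ENNReal.ofReal (lm ‖R.eval (circleMap 0 1 t)‖) ≤
        ENNReal.ofReal (T + 2 * Real.pi * Real.log (1 + τ)) := by
    calc ∫⁻ t in Ico 0 (2 * Real.pi), ENNReal.ofReal (PK w (circleMap 0 1 t)) *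
          ENNReal.ofReal (lm ‖R.eval (circleMap 0 1 t)‖)
        ≤ ∫⁻ t in Ico 0 (2 * Real.pi), (ENNReal.ofReal (PK w (circleMap 0 1 t)) *
          ENNReal.ofReal (lm ‖((1 - C (τ : ℂ) * X) * R).eval (circleMap 0 1 t)‖) +
          ENNReal.ofReal (PK w (circleMap 0 1 t)) * ENNReal.ofReal (Real.log (1 + τ))) := by
          refine lintegral_mono fun t => ?_
          rw [← mul_add]
          refine mul_le_mul_right ?_ _
          rw [← ENNReal.ofReal_add (lm_nonneg _) hlog]
          exact ENNReal.ofReal_le_ofReal (lm_factor hτ (circle_norm t))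
      _ = (∫⁻ t in Ico 0 (2 * Real.pi), ENNReal.ofReal (PK w (circleMap 0 1 t)) *
          ENNReal.ofReal (lm ‖((1 - C (τ : ℂ) * X) * R).eval (circleMap 0 1 t)‖)) +
          ENNReal.ofReal (2 * Real.pi) * ENNReal.ofReal (Real.log (1 + τ)) := by
          have hm : Measurable fun t => ENNReal.ofReal (PK w (circleMap 0 1 t)) *
              ENNReal.ofReal (Real.log (1 + τ)) :=
            ((PK_continuous hw).measurable.ennreal_ofReal).mul_const _
          rw [lintegral_add_right _ hm, lintegral_mul_const _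
            (PK_continuous hw).measurable.ennreal_ofReal, PK_lintegral hw]
      _ ≤ _ := by
          rw [ENNReal.ofReal_add hT (mul_nonneg two_pi_pos.le hlog),
            ENNReal.ofReal_mul two_pi_pos.le]
          exact add_le_add_left h _
  have h2 := PA_lower hw (by positivity) h1
  rw [PA_eq hw hR hroots] at h2
  have hRw : R.eval w ≠ 0 := fun h0 => absurd (hroots w h0) (not_le.2 hw)
  have h3 : Real.exp (-(T / (2 * Real.pi))) / (1 + τ) ≤ ‖R.eval w‖ := by
    rw [← Real.exp_log (norm_pos_iff.2 hRw)]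
    have h4 : Real.exp (-(T / (2 * Real.pi))) / (1 + τ) =
        Real.exp (-((T + 2 * Real.pi * Real.log (1 + τ)) / (2 * Real.pi))) := by
      have h5 : -((T + 2 * Real.pi * Real.log (1 + τ)) / (2 * Real.pi)) =
          -(T / (2 * Real.pi)) - Real.log (1 + τ) := by
        have := Real.pi_pos
        field_simp
        ring
      rw [h5, Real.exp_sub, Real.exp_log (by linarith)]
    rw [h4]
    exact Real.exp_le_exp.2 h2
  rw [eval_mul, norm_mul]
  have h6 : (1 - C (τ : ℂ) * X).eval w = 1 - (τ : ℂ) * w := by simp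
  rw [h6]
  exact mul_le_mul_of_nonneg_left h3 (norm_nonneg _)

/-! ### small values of polynomials on the circle -/

theorem eval_circle (G : ℂ[X]) (t : ℝ) :
    G.eval (circleMap 0 1 t) = ES G.support (fun i => (i : ℝ)) G.coeff t := by
  rw [eval_eq_sum, Polynomial.sum, ES]
  refine Finset.sum_congr rfl fun i _ => ?_
  congr 1
  rw [circleMap_zero, Complex.ofReal_one, one_mul, ← Complex.exp_nat_mul]
  congr 1
  push_cast
  ring

theorem global_SV {k N : ℕ} {C : ℝ} (h : SVP k C N) {G : ℂ[X]} (hk : G.support.card ≤ k)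
    {j : ℕ} (hj : 1 ≤ ‖G.coeff j‖) {δ : ℝ} (hδ : 0 < δ) (hδ1 : δ ≤ 1) :
    volume {t | t ∈ Icc 0 (2 * Real.pi) ∧ ‖G.eval (circleMap 0 1 t)‖ ≤ δ ^ N} ≤
      ENNReal.ofReal (C * (2 * Real.pi) * δ) := by
  have hjs : j ∈ G.support := by
    rw [mem_support_iff]
    intro h0
    rw [h0, norm_zero] at hj
    linarith
  have h1 := h G.support hk (fun i => (i : ℝ)) G.coeff j hjs hj 1 (2 * Real.pi) 0 one_pos
    two_pi_pos (by rw [one_mul]) (fun i _ i' _ hii => by
      have : (1 : ℝ) ≤ |((i : ℤ) : ℝ) - ((i' : ℤ) : ℝ)| := by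
        rw [← Int.cast_sub, ← Int.cast_abs]
        have h2 : (1 : ℤ) ≤ |(i : ℤ) - (i' : ℤ)| := Int.one_le_abs (by omega)
        exact_mod_cast h2
      simpa using this) δ hδ hδ1
  rw [zero_add] at h1
  refine (measure_mono ?_).trans h1
  rintro t ⟨ht1, ht2⟩
  exact ⟨ht1, by rw [← eval_circle]; exact ht2⟩

theorem eval_circle_measurable (G : ℂ[X]) : Measurable fun t => G.eval (circleMap 0 1 t) := by
  have : Continuous fun t => G.eval (circleMap 0 1 t) :=
    G.continuous.comp (continuous_circleMap 0 1)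
  exact this.measurable

theorem global_lm {k N : ℕ} {C : ℝ} (hC : 1 ≤ C) (hN : 1 ≤ N) (h : SVP k C N) {G : ℂ[X]}
    (hk : G.support.card ≤ k) {j : ℕ} (hj : 1 ≤ ‖G.coeff j‖) :
    ∫⁻ t in Ico 0 (2 * Real.pi), ENNReal.ofReal (lm ‖G.eval (circleMap 0 1 t)‖) ≤
      ENNReal.ofReal (N * (C * (2 * Real.pi) * geo)) := by
  have hpi := two_pi_pos
  have h1 := layer_int (p := fun _ => 1) measurable_const (eval_circle_measurable G)
    (Ico 0 (2 * Real.pi)) hN
  simp only [one_mul, lintegral_const, Measure.restrict_apply MeasurableSet.univ,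
    univ_inter] at h1
  refine h1.trans ?_
  rw [ENNReal.ofReal_mul (Nat.cast_nonneg N), ENNReal.ofReal_natCast, ← geo_tsum (by positivity)]
  refine mul_le_mul_right (ENNReal.tsum_le_tsum fun m => ?_) _
  have h2 := global_SV h hk hj (δ := Real.exp (-(m : ℝ))) (Real.exp_pos _) (by
    rw [Real.exp_le_one_iff]
    have : (0 : ℝ) ≤ m := Nat.cast_nonneg m
    linarith)
  refine (measure_mono ?_).trans (h2.trans (ENNReal.ofReal_le_ofReal ?_))
  · rintro t ⟨ht1, ht2⟩
    exact ⟨Ico_subset_Icc_self ht2, ht1⟩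
  · refine mul_le_mul_of_nonneg_left ?_ (by positivity)
    apply Real.exp_le_exp.2
    have : (0 : ℝ) ≤ m := Nat.cast_nonneg m
    linarith

/-- the same with a bounded weight -/
theorem global_lm_weight {k N : ℕ} {C : ℝ} (hC : 1 ≤ C) (hN : 1 ≤ N) (h : SVP k C N) {G : ℂ[X]}
    (hk : G.support.card ≤ k) {j : ℕ} (hj : 1 ≤ ‖G.coeff j‖) {p : ℝ → ℝ} {S : Set ℝ}
    (hS : S ⊆ Ico 0 (2 * Real.pi)) (hSm : MeasurableSet S) {K : ℝ} (hK : 0 ≤ K)
    (hp : ∀ t ∈ S, p t ≤ K) :
    ∫⁻ t in S, ENNReal.ofReal (p t) * ENNReal.ofReal (lm ‖G.eval (circleMap 0 1 t)‖) ≤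
      ENNReal.ofReal (K * (N * (C * (2 * Real.pi) * geo))) := by
  have hm : Measurable fun t => ENNReal.ofReal (lm ‖G.eval (circleMap 0 1 t)‖) :=
    (lm_measurable.comp (eval_circle_measurable G).norm).ennreal_ofReal
  calc ∫⁻ t in S, ENNReal.ofReal (p t) * ENNReal.ofReal (lm ‖G.eval (circleMap 0 1 t)‖)
      ≤ ∫⁻ t in S, ENNReal.ofReal K * ENNReal.ofReal (lm ‖G.eval (circleMap 0 1 t)‖) :=
        setLIntegral_mono' hSm fun t ht => mul_le_mul_left
          (ENNReal.ofReal_le_ofReal (hp t ht)) _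
    _ = ENNReal.ofReal K * ∫⁻ t in S, ENNReal.ofReal (lm ‖G.eval (circleMap 0 1 t)‖) :=
        lintegral_const_mul _ hm
    _ ≤ ENNReal.ofReal K * ENNReal.ofReal (N * (C * (2 * Real.pi) * geo)) :=
        mul_le_mul_right ((lintegral_mono_set hS).trans (global_lm hC hN h hk hj)) _
    _ = _ := (ENNReal.ofReal_mul hK).symm

theorem PK_zero (t : ℝ) : PK 0 (circleMap 0 1 t) = 1 := by
  rw [PK_eq, circle_norm]
  simp

theorem PA_zero (G : ℂ[X]) : PA 0 G = G.logMahlerMeasure := by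
  unfold PA
  rw [logMahlerMeasure_def, Real.circleAverage_def, Real.circleAverage_def]
  congr 1
  refine intervalIntegral.integral_congr fun t _ => ?_
  simp only [PK_zero, one_mul]

/-- lower bound for the Mahler measure of a polynomial with a bounded number of terms -/
theorem logMahler_lower {k N : ℕ} {C : ℝ} (hC : 1 ≤ C) (hN : 1 ≤ N) (h : SVP k C N) {G : ℂ[X]}
    (hk : G.support.card ≤ k) (j : ℕ) (hj : G.coeff j ≠ 0) :
    Real.log ‖G.coeff j‖ - N * (C * geo) ≤ G.logMahlerMeasure := by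
  have hG : G ≠ 0 := fun h0 => hj (by rw [h0]; simp)
  set a : ℂ := (G.coeff j)⁻¹ with ha
  have ha0 : a ≠ 0 := inv_ne_zero hj
  have h1 : 1 ≤ ‖(Polynomial.C a * G).coeff j‖ := by
    rw [coeff_C_mul, ha, inv_mul_cancel₀ hj, norm_one]
  have h2 : (Polynomial.C a * G).support.card ≤ k := by
    refine (Finset.card_le_card fun i hi => ?_).trans hk
    rw [mem_support_iff, coeff_C_mul] at hi
    rw [mem_support_iff]
    exact right_ne_zero_of_mul hi
  have h3 := global_lm_weight hC hN h h2 h1 (p := fun t => PK 0 (circleMap 0 1 t))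
    (S := Ico 0 (2 * Real.pi)) Subset.rfl measurableSet_Ico zero_le_one
    (fun t _ => (PK_zero t).le)
  have hT : 0 ≤ 1 * (N * (C * (2 * Real.pi) * geo)) := by
    have := two_pi_pos; have := geo_nonneg; positivity
  have h4 := PA_lower (by simp) hT h3
  rw [PA_zero, logMahlerMeasure_C_mul ha0 hG, ha, norm_inv, Real.log_inv] at h4
  have h5 : 1 * (N * (C * (2 * Real.pi) * geo)) / (2 * Real.pi) = N * (C * geo) := by
    have := Real.pi_pos
    field_simp
  rw [h5] at h4
  linarith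

end Pool.Agent.Helper96.Salem
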