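import Pool.Agent.Helper96.Salem.Lower
import Pool.Agent.Helper96.Salem.Comb
import Pool.Agent.Helper96.Salem.Alg

/-!
Limit points of the numbers `τ > 1` which are Mahler measures (and roots) of integer polynomials
with a bounded number of terms.
-/

namespace Pool.Agent.Helper96.Salem

open Polynomial Filter Topology MeasureTheory

/-- complex version of an integer polynomial -/
noncomputable def cx (G : ℤ[X]) : ℂ[X] := G.map (Int.castRingHom ℂ)

/-- the data of the proof -/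
structure Ctx (k N : ℕ) (K c : ℝ) (U : Ultrafilter ℝ) where
  G : ℝ → ℤ[X]
  R : ℝ → ℂ[X]
  m : ℕ → ℝ → ℕ
  a : ℕ → ℤ
  hK : 1 ≤ K
  hN : 1 ≤ N
  hSV : SVP k K N
  hc : 1 < c
  hlim : Tendsto (fun τ : ℝ => τ) (U : Filter ℝ) (𝓝 c)
  hne : ∀ᶠ τ in (U : Filter ℝ), τ ≠ c
  h1 : ∀ᶠ τ in (U : Filter ℝ), 1 < τ
  h0 : ∀ᶠ τ in (U : Filter ℝ), (G τ).coeff 0 = 1
  hk : ∀ᶠ τ in (U : Filter ℝ), (G τ).support.card ≤ k
  hR : ∀ᶠ τ in (U : Filter ℝ), R τ ≠ 0
  hroots : ∀ᶠ τ in (U : Filter ℝ), ∀ z, (R τ).eval z = 0 → 1 ≤ ‖z‖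
  hfac : ∀ᶠ τ in (U : Filter ℝ), cx (G τ) = (1 - C (τ : ℂ) * X) * R τ
  hG : ∀ᶠ τ in (U : Filter ℝ), G τ = ∑ i ∈ Finset.range k, C (a i) * X ^ (m i τ)

variable {k N : ℕ} {K c : ℝ} {U : Ultrafilter ℝ}

namespace Ctx

/-- the limit polynomial -/
noncomputable def A (D : Ctx k N K c U) : ℤ[X] := LP U D.m D.a k

theorem conv (D : Ctx k N K c U) {w : ℂ} (hw : ‖w‖ < 1) :
    Tendsto (fun τ => (cx (D.G τ)).eval w) (U : Filter ℝ) (𝓝 ((cx D.A).eval w)) := by
  rw [tendsto_iff_norm_sub_tendsto_zero, Metric.tendsto_nhds]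
  intro ε hε
  refine (unif_conv U D.m D.hG (norm_nonneg w) hw (half_pos hε)).mono fun τ hτ => ?_
  rw [dist_zero_right, norm_norm]
  exact lt_of_le_of_lt (hτ w le_rfl) (half_lt_self hε)

theorem A_zero (D : Ctx k N K c U) : D.A.coeff 0 = 1 := by
  have h1 := D.conv (w := 0) (by simp)
  have h2 : Tendsto (fun τ => (cx (D.G τ)).eval 0) (U : Filter ℝ) (𝓝 (1 : ℂ)) := by
    refine tendsto_const_nhds.congr' (D.h0.mono fun τ hτ => ?_)
    show (1 : ℂ) = (cx (D.G τ)).eval 0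
    rw [← coeff_zero_eq_eval_zero, cx, coeff_map, hτ]; simp
  have h3 := tendsto_nhds_unique h1 h2
  rw [← coeff_zero_eq_eval_zero, cx, coeff_map] at h3
  simp only [eq_intCast] at h3
  exact_mod_cast h3

theorem lower (D : Ctx k N K c U) {w : ℂ} (hw : ‖w‖ < 1) {T : ℝ} (hT : 0 ≤ T)
    (h : ∀ᶠ τ in (U : Filter ℝ), ∫⁻ t in Set.Ico 0 (2 * Real.pi),
      ENNReal.ofReal (PK w (circleMap 0 1 t)) *
      ENNReal.ofReal (lm ‖(cx (D.G τ)).eval (circleMap 0 1 t)‖) ≤ ENNReal.ofReal T) :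
    ‖1 - (c : ℂ) * w‖ * (Real.exp (-(T / (2 * Real.pi))) / (1 + c)) ≤ ‖(cx D.A).eval w‖ := by
  have hc := D.hc
  have h1 : Tendsto (fun τ : ℝ => ‖1 - (τ : ℂ) * w‖ *
      (Real.exp (-(T / (2 * Real.pi))) / (1 + τ))) (U : Filter ℝ)
      (𝓝 (‖1 - (c : ℂ) * w‖ * (Real.exp (-(T / (2 * Real.pi))) / (1 + c)))) := by
    have hcont : ContinuousAt (fun τ : ℝ => ‖1 - (τ : ℂ) * w‖ *
        (Real.exp (-(T / (2 * Real.pi))) / (1 + τ))) c := by
      refine ContinuousAt.mul (by fun_prop) (ContinuousAt.div (by fun_prop) (by fun_prop) ?_)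
      linarith
    exact hcont.tendsto.comp D.hlim
  have h2 := (D.conv hw).norm
  refine le_of_tendsto_of_tendsto h1 h2 ?_
  filter_upwards [h, D.h1, D.hR, D.hroots, D.hfac] with τ hτ1 hτ2 hτ3 hτ4 hτ5
  rw [hτ5] at hτ1 ⊢
  exact key_ineq hw hτ2 hτ3 hτ4 hT hτ1

theorem coeff_one (D : Ctx k N K c U) :
    ∀ᶠ τ in (U : Filter ℝ), 1 ≤ ‖(cx (D.G τ)).coeff 0‖ :=
  D.h0.mono fun τ hτ => by rw [cx, coeff_map, hτ]; simp

theorem card_cx (D : Ctx k N K c U) :
    ∀ᶠ τ in (U : Filter ℝ), (cx (D.G τ)).support.card ≤ k :=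
  D.hk.mono fun _ hτ => (Finset.card_le_card (support_map_subset _ _)).trans hτ

theorem disc (D : Ctx k N K c U) {w : ℂ} (hw : ‖w‖ < 1) (hA : (cx D.A).eval w = 0) :
    w = (c : ℂ)⁻¹ := by
  have hc := D.hc
  have hpi := two_pi_pos
  have hgeo := geo_nonneg
  have hK := D.hK
  set B : ℝ := (1 + ‖w‖) / (1 - ‖w‖) with hB
  have hB0 : 0 ≤ B := div_nonneg (by positivity) (by linarith)
  set T : ℝ := B * (N * (K * (2 * Real.pi) * geo)) with hT
  have hT0 : 0 ≤ T := by positivity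
  have h1 := D.lower hw hT0 (by
    filter_upwards [D.coeff_one, D.card_cx] with τ h1 h2
    exact global_lm_weight D.hK D.hN D.hSV h2 h1 Set.Subset.rfl measurableSet_Ico hB0
      (fun t _ => PK_le hw t))
  rw [hA, norm_zero] at h1
  have h2 : 0 < Real.exp (-(T / (2 * Real.pi))) / (1 + c) :=
    div_pos (Real.exp_pos _) (by linarith)
  have h3 : ‖1 - (c : ℂ) * w‖ ≤ 0 := by
    by_contra hcon
    have := mul_pos (not_le.1 hcon) h2
    linarith
  have h4 : 1 - (c : ℂ) * w = 0 := norm_le_zero_iff.1 h3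
  rw [sub_eq_zero] at h4
  have hcC : (c : ℂ) ≠ 0 := by rw [Ne, Complex.ofReal_eq_zero]; linarith
  refine eq_inv_of_mul_eq_one_left ?_
  rw [mul_comm]; exact h4.symm

theorem root (D : Ctx k N K c U) : (cx D.A).eval ((c : ℂ)⁻¹) = 0 := by
  have hc := D.hc
  have hcC : (c : ℂ) ≠ 0 := by rw [Ne, Complex.ofReal_eq_zero]; linarith
  have h1 : Tendsto (fun τ : ℝ => (cx D.A).eval ((τ : ℂ)⁻¹)) (U : Filter ℝ)
      (𝓝 ((cx D.A).eval ((c : ℂ)⁻¹))) := by
    have h2 : Tendsto (fun τ : ℝ => (τ : ℂ)⁻¹) (U : Filter ℝ) (𝓝 ((c : ℂ)⁻¹)) :=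
      ((Complex.continuous_ofReal.tendsto c).comp D.hlim).inv₀ hcC
    exact ((cx D.A).continuous.tendsto _).comp h2
  set q : ℝ := 2 / (1 + c) with hq
  have hq0 : 0 ≤ q := by positivity
  have hq1 : q < 1 := by rw [hq, div_lt_one (by linarith)]; linarith
  have hev : ∀ᶠ τ in (U : Filter ℝ), (1 + c) / 2 < τ :=
    D.hlim.eventually (lt_mem_nhds (by linarith))
  have h3 : ∀ ε > 0, ‖(cx D.A).eval ((c : ℂ)⁻¹)‖ ≤ ε := by
    intro ε hε
    refine le_of_tendsto h1.norm ?_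
    filter_upwards [unif_conv U D.m D.hG hq0 hq1 hε, hev, D.hfac] with τ h4 h5 h6
    have hτ0 : 0 < τ := by linarith
    have hτC : (τ : ℂ) ≠ 0 := by rw [Ne, Complex.ofReal_eq_zero]; linarith
    have h7 : ‖(τ : ℂ)⁻¹‖ ≤ q := by
      rw [norm_inv, Complex.norm_real, Real.norm_eq_abs, abs_of_pos hτ0, hq,
        inv_le_comm₀ hτ0 (by positivity), inv_div]
      exact h5.le
    have h8 := h4 _ h7
    have h9 : (cx (D.G τ)).eval ((τ : ℂ)⁻¹) = 0 := by
      rw [h6, eval_mul]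
      have : (1 - C (τ : ℂ) * X).eval ((τ : ℂ)⁻¹) = 0 := by
        simp [mul_inv_cancel₀ hτC]
      rw [this, zero_mul]
    have h10 : ‖(cx (D.G τ)).eval ((τ : ℂ)⁻¹) - (cx D.A).eval ((τ : ℂ)⁻¹)‖ ≤ ε := h8
    rw [h9, zero_sub, norm_neg] at h10
    exact h10
  have h11 : ‖(cx D.A).eval ((c : ℂ)⁻¹)‖ ≤ 0 := le_of_forall_pos_le_add fun ε hε => by
    rw [zero_add]; exact h3 ε hε
  exact norm_le_zero_iff.1 h11

/-- coefficients of the blocks on the circle -/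
noncomputable def b (D : Ctx k N K c U) (j : ℕ) (t : ℝ) : ℂ :=
  Bl U D.m D.a k j (circleMap 0 1 t)

theorem circle_zpow (t : ℝ) (d : ℤ) :
    (circleMap 0 1 t) ^ d = Complex.exp (((d * t : ℝ) : ℂ) * Complex.I) := by
  rw [circleMap_zero, Complex.ofReal_one, one_mul, ← Complex.exp_int_mul]
  congr 1
  push_cast
  ring

theorem exp_lip (u v : ℝ) : ‖Complex.exp ((u : ℂ) * Complex.I) -
    Complex.exp ((v : ℂ) * Complex.I)‖ ≤ |u - v| := by
  have h1 : Complex.exp ((u : ℂ) * Complex.I) - Complex.exp ((v : ℂ) * Complex.I) =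
      Complex.exp ((v : ℂ) * Complex.I) * (Complex.exp (Complex.I * ((u - v : ℝ) : ℂ)) - 1) := by
    rw [mul_sub, mul_one, ← Complex.exp_add]
    congr 2
    push_cast
    ring
  rw [h1, norm_mul, norm_exp_I, one_mul]
  exact Real.norm_exp_I_mul_ofReal_sub_one_le

/-- Lipschitz constant -/
noncomputable def Lam (D : Ctx k N K c U) : ℝ :=
  ∑ i ∈ Finset.range k, |(D.a i : ℝ)| * |(dd U D.m i : ℝ)|

theorem Lam_nonneg (D : Ctx k N K c U) : 0 ≤ D.Lam :=
  Finset.sum_nonneg fun i _ => by positivity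

theorem b_lip (D : Ctx k N K c U) (j : ℕ) (x y : ℝ) :
    ‖D.b j x - D.b j y‖ ≤ D.Lam * |x - y| := by
  unfold b Bl
  rw [← Finset.sum_sub_distrib]
  refine (norm_sum_le _ _).trans ?_
  calc ∑ i ∈ (Finset.range k).filter (fun i => rp U D.m i = j),
        ‖(D.a i : ℂ) * circleMap 0 1 x ^ (dd U D.m i) -
          (D.a i : ℂ) * circleMap 0 1 y ^ (dd U D.m i)‖
      ≤ ∑ i ∈ (Finset.range k).filter (fun i => rp U D.m i = j),
        |(D.a i : ℝ)| * |(dd U D.m i : ℝ)| * |x - y| := by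
        refine Finset.sum_le_sum fun i _ => ?_
        rw [← mul_sub, norm_mul, Complex.norm_intCast, circle_zpow, circle_zpow, mul_assoc]
        refine mul_le_mul_of_nonneg_left ((exp_lip _ _).trans (le_of_eq ?_)) (abs_nonneg _)
        rw [← mul_sub, abs_mul]
    _ ≤ ∑ i ∈ Finset.range k, |(D.a i : ℝ)| * |(dd U D.m i : ℝ)| * |x - y| :=
        Finset.sum_le_sum_of_subset_of_nonneg (Finset.filter_subset _ _)
          fun i _ _ => by positivity
    _ = D.Lam * |x - y| := by rw [← Finset.sum_mul]; rfl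

theorem circle_ne_zero (t : ℝ) : circleMap 0 1 t ≠ 0 := by
  rw [← norm_pos_iff, circle_norm]; exact one_pos

theorem eval_BS (D : Ctx k N K c U) : ∀ᶠ τ in (U : Filter ℝ), ∀ t : ℝ,
    (cx (D.G τ)).eval (circleMap 0 1 t) =
      BS (blocks U D.m k) (fun j => (D.m j τ : ℝ)) D.b t := by
  filter_upwards [eval_blocks U D.m D.hG] with τ hτ t
  have h1 := hτ _ (circle_ne_zero t)
  unfold cx
  rw [h1]
  unfold BS
  refine Finset.sum_congr rfl fun j _ => ?_
  rw [mul_comm, ← zpow_natCast, circle_zpow]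
  rfl

theorem gap (D : Ctx k N K c U) (g : ℝ) : ∀ᶠ τ in (U : Filter ℝ), ∀ i ∈ blocks U D.m k,
    ∀ j ∈ blocks U D.m k, i ≠ j → g ≤ |(D.m i τ : ℝ) - (D.m j τ : ℝ)| := by
  obtain ⟨M, hM⟩ := exists_int_gt g
  refine (blocks_gap U D.m (k := k) M).mono fun τ hτ i hi j hj hij => ?_
  have h1 := hτ i hi j hj hij
  have h2 : (M : ℝ) ≤ |(D.m i τ : ℝ) - (D.m j τ : ℝ)| := by exact_mod_cast h1
  linarith

/-- the angle of a point of the circle different from `1` -/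
theorem exists_angle {ζ : ℂ} (h1 : ‖ζ‖ = 1) (h2 : ζ ≠ 1) :
    ∃ θ : ℝ, 0 < θ ∧ θ < 2 * Real.pi ∧ circleMap 0 1 θ = ζ := by
  have hpi := Real.pi_pos
  have h3 : Complex.exp ((ζ.arg : ℂ) * Complex.I) = ζ := by
    have := Complex.norm_mul_exp_arg_mul_I ζ
    rw [h1, Complex.ofReal_one, one_mul] at this
    exact this
  have harg0 : ζ.arg ≠ 0 := by
    intro h
    rw [h] at h3
    simp at h3
    exact h2 h3.symm
  rcases lt_or_gt_of_ne harg0 with h | h
  · refine ⟨ζ.arg + 2 * Real.pi, by linarith [Complex.neg_pi_lt_arg ζ], by linarith, ?_⟩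
    rw [circleMap_zero, Complex.ofReal_one, one_mul]
    push_cast
    rw [add_mul, Complex.exp_add, Complex.exp_two_pi_mul_I, mul_one, h3]
  · refine ⟨ζ.arg, h, by linarith [Complex.arg_le_pi ζ], ?_⟩
    rw [circleMap_zero, Complex.ofReal_one, one_mul, h3]

theorem angle_inj {s t : ℝ} (hs : 0 < s) (hs' : s < 2 * Real.pi) (ht : 0 ≤ t)
    (ht' : t ≤ 2 * Real.pi) (h : circleMap 0 1 t = circleMap 0 1 s) : t = s := by
  rw [circleMap_zero, circleMap_zero, Complex.ofReal_one, one_mul, one_mul,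
    Complex.exp_eq_exp_iff_exists_int] at h
  obtain ⟨n, hn⟩ := h
  have h1 : (t : ℂ) = s + n * (2 * Real.pi) := by
    have h2 : (t : ℂ) * Complex.I = (s + n * (2 * Real.pi)) * Complex.I := by
      rw [hn]; ring
    exact mul_right_cancel₀ Complex.I_ne_zero h2
  have h3 : t = s + n * (2 * Real.pi) := by exact_mod_cast h1
  have hpi := two_pi_pos
  have h4 : n = 0 := by
    have h5 : (n : ℝ) * (2 * Real.pi) < 1 * (2 * Real.pi) := by linarith
    have h6 : (-1 : ℝ) * (2 * Real.pi) < n * (2 * Real.pi) := by linarith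
    have h7 : (n : ℝ) < 1 := lt_of_mul_lt_mul_right h5 hpi.le
    have h8 : (-1 : ℝ) < n := lt_of_mul_lt_mul_right h6 hpi.le
    have h9 : n < 1 := by exact_mod_cast h7
    have h10 : -1 < n := by exact_mod_cast h8
    omega
  rw [h3, h4]; simp

theorem circle (D : Ctx k N K c U) {ζ : ℂ} (hζ1 : ‖ζ‖ = 1) (hζ : ζ ≠ 1)
    (hA : (cx D.A).eval ζ = 0) : ∀ j ∈ blocks U D.m k, Bl U D.m D.a k j ζ = 0 := by
  intro j hj
  by_contra hb
  have hc := D.hc
  have hpi := two_pi_pos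
  have hgeo := geo_nonneg
  have hK := D.hK
  obtain ⟨θ₀, hθ0, hθ1, hθζ⟩ := exists_angle hζ1 hζ
  have hb0 : 0 < ‖D.b j θ₀‖ := by
    rw [norm_pos_iff, b, hθζ]; exact hb
  set β : ℝ := ‖D.b j θ₀‖ / 2 with hβ
  have hβ0 : 0 < β := half_pos hb0
  have hLam := D.Lam_nonneg
  -- the arc
  set r : ℝ := min (min (θ₀ / 2) ((2 * Real.pi - θ₀) / 2)) (β / (D.Lam + 1)) with hr
  have hr0 : 0 < r := by
    refine lt_min (lt_min (by linarith) (by linarith)) (div_pos hβ0 (by linarith))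
  have hr1 : r ≤ θ₀ / 2 := (min_le_left _ _).trans (min_le_left _ _)
  have hr2 : r ≤ (2 * Real.pi - θ₀) / 2 := (min_le_left _ _).trans (min_le_right _ _)
  have hr3 : D.Lam * r ≤ β := by
    have h1 : r ≤ β / (D.Lam + 1) := min_le_right _ _
    rw [le_div_iff₀ (by linarith)] at h1
    nlinarith
  set x : ℝ := θ₀ - r with hx
  set y : ℝ := θ₀ + r with hy
  have hx0 : 0 < x := by linarith
  have hy1 : y < 2 * Real.pi := by linarith
  have hxy : x < y := by linarith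
  have hbβ : ∀ t ∈ Set.Icc x y, β ≤ ‖D.b j t‖ := by
    intro t ht
    have h1 := D.b_lip j θ₀ t
    have h2 : |θ₀ - t| ≤ r := by rw [abs_le]; constructor <;> linarith [ht.1, ht.2]
    have h3 : ‖D.b j θ₀‖ ≤ ‖D.b j θ₀ - D.b j t‖ + ‖D.b j t‖ := by
      have := norm_add_le (D.b j θ₀ - D.b j t) (D.b j t)
      rwa [sub_add_cancel] at this
    have h4 : D.Lam * |θ₀ - t| ≤ β := (mul_le_mul_of_nonneg_left h2 hLam).trans hr3
    linarith
  -- the distance outside of the arc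
  obtain ⟨r₀, hr₀, hout⟩ : ∃ r₀ : ℝ, 0 < r₀ ∧ ∀ t ∈ Set.Ico 0 (2 * Real.pi) \ Set.Ico x y,
      r₀ ≤ ‖circleMap 0 1 t - ζ‖ := by
    have hcomp : IsCompact (Set.Icc 0 x ∪ Set.Icc y (2 * Real.pi)) :=
      isCompact_Icc.union isCompact_Icc
    have hcont : Continuous fun t : ℝ => ‖circleMap 0 1 t - ζ‖ :=
      ((continuous_circleMap 0 1).sub continuous_const).norm
    obtain ⟨t₀, ht₀, hmin⟩ := hcomp.exists_isMinOn ⟨0, Or.inl ⟨le_rfl, hx0.le⟩⟩
      hcont.continuousOn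
    refine ⟨‖circleMap 0 1 t₀ - ζ‖, ?_, ?_⟩
    · rw [norm_pos_iff, sub_ne_zero]
      intro h
      rw [← hθζ] at h
      have h1 : t₀ = θ₀ := by
        rcases ht₀ with h2 | h2
        · exact angle_inj hθ0 hθ1 h2.1 (by linarith [h2.2]) h
        · exact angle_inj hθ0 hθ1 (by linarith [h2.1]) h2.2 h
      rcases ht₀ with h2 | h2
      · linarith [h2.2]
      · linarith [h2.1]
    · intro t ht
      refine hmin ?_
      by_cases h1 : t < x
      · exact Or.inl ⟨ht.1.1, h1.le⟩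
      · refine Or.inr ⟨?_, ht.1.2.le⟩
        by_contra h2
        exact ht.2 ⟨not_lt.1 h1, not_le.1 h2⟩
  -- the total bound
  set T1 : ℝ := N * ((4 * (K * max 1 (2 / β)) * (2 * Real.pi) + 1) * geo) with hT1
  set T2 : ℝ := (4 / r₀) * (N * (K * (2 * Real.pi) * geo)) with hT2
  have hmax : 0 ≤ max 1 (2 / β) := le_trans zero_le_one (le_max_left _ _)
  have hT10 : 0 ≤ T1 := by positivity
  have hT20 : 0 ≤ T2 := by positivity
  have hIcoS : Set.Ico x y ⊆ Set.Ico 0 (2 * Real.pi) :=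
    Set.Ico_subset_Ico hx0.le hy1.le
  have hmain : ∀ δ : ℝ, 0 < δ → δ < 1 → δ ≤ r₀ / 2 →
      ‖1 - (c : ℂ) * (((1 - δ : ℝ) : ℂ) * ζ)‖ *
        (Real.exp (-((T1 + T2) / (2 * Real.pi))) / (1 + c)) ≤
      ‖(cx D.A).eval (((1 - δ : ℝ) : ℂ) * ζ)‖ := by
    intro δ hδ0 hδ1 hδr
    set w : ℂ := ((1 - δ : ℝ) : ℂ) * ζ with hw
    have hwn : ‖w‖ = 1 - δ := by
      rw [hw, norm_mul, hζ1, mul_one, Complex.norm_real, Real.norm_eq_abs,
        abs_of_pos (by linarith)]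
    have hw1 : ‖w‖ < 1 := by rw [hwn]; linarith
    have hζw : ‖ζ - w‖ = δ := by
      have : ζ - w = ((δ : ℝ) : ℂ) * ζ := by rw [hw]; push_cast; ring
      rw [this, norm_mul, hζ1, mul_one, Complex.norm_real, Real.norm_eq_abs, abs_of_pos hδ0]
    refine D.lower hw1 (add_nonneg hT10 hT20) ?_
    have hPtot : ∫⁻ t in Set.Ico x y, ENNReal.ofReal (PK w (circleMap 0 1 t)) ≤
        ENNReal.ofReal (2 * Real.pi) := by
      rw [← PK_lintegral hw1]
      exact lintegral_mono_set hIcoS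
    obtain ⟨g₀, hg₀, harc⟩ := arc_bound D.hK D.hN D.hSV hxy (PK_continuous hw1)
      (PK_pos hw1) hpi.le hPtot (blocks_card U D.m k) hLam (b := D.b)
      (fun i _ u v => D.b_lip i u v) hj hβ0 hbβ (G := K * (2 * Real.pi)) (by positivity)
    filter_upwards [D.eval_BS, D.gap g₀, D.coeff_one, D.card_cx] with τ h1 h2 h3 h4
    have h5 := harc (fun j => (D.m j τ : ℝ)) h2 (by
      intro m
      have h6 := global_SV D.hSV h4 h3 (δ := Real.exp (-(m : ℝ))) (Real.exp_pos _) (by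
        rw [Real.exp_le_one_iff]
        have : (0 : ℝ) ≤ m := Nat.cast_nonneg m
        linarith)
      refine (measure_mono ?_).trans h6
      rintro t ⟨ht1, ht2⟩
      refine ⟨⟨by linarith [ht1.1], by linarith [ht1.2]⟩, ?_⟩
      rw [h1 t]; exact ht2)
    have h7 : ∫⁻ t in Set.Ico x y, ENNReal.ofReal (PK w (circleMap 0 1 t)) *
        ENNReal.ofReal (lm ‖(cx (D.G τ)).eval (circleMap 0 1 t)‖) ≤ ENNReal.ofReal T1 := by
      refine le_trans (le_of_eq ?_) h5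
      refine lintegral_congr fun t => ?_
      rw [h1 t]
    have h8 : ∫⁻ t in Set.Ico 0 (2 * Real.pi) \ Set.Ico x y,
        ENNReal.ofReal (PK w (circleMap 0 1 t)) *
        ENNReal.ofReal (lm ‖(cx (D.G τ)).eval (circleMap 0 1 t)‖) ≤ ENNReal.ofReal T2 := by
      refine global_lm_weight D.hK D.hN D.hSV h4 h3 Set.sdiff_subset
        (measurableSet_Ico.diff measurableSet_Ico) (by positivity) ?_
      intro t ht
      have h9 := hout t ht
      have h10 : r₀ / 2 ≤ ‖circleMap 0 1 t - w‖ := by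
        have h11 : ‖circleMap 0 1 t - ζ‖ ≤ ‖circleMap 0 1 t - w‖ + ‖ζ - w‖ := by
          have := norm_sub_le (circleMap 0 1 t - w) (ζ - w)
          have e : circleMap 0 1 t - w - (ζ - w) = circleMap 0 1 t - ζ := by ring
          rwa [e] at this
        rw [hζw] at h11
        linarith
      rw [PK_eq, circle_norm, hwn]
      have h12 : (r₀ / 2) ^ 2 ≤ ‖circleMap 0 1 t - w‖ ^ 2 :=
        pow_le_pow_left₀ (by positivity) h10 2
      rw [div_le_div_iff₀ (lt_of_lt_of_le (by positivity) h12) hr₀]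
      have h13 : (1 ^ 2 - (1 - δ) ^ 2) * r₀ ≤ r₀ * r₀ := by
        refine mul_le_mul_of_nonneg_right ?_ hr₀.le
        nlinarith
      nlinarith
    have h14 : Set.Ico 0 (2 * Real.pi) = Set.Ico x y ∪
        (Set.Ico 0 (2 * Real.pi) \ Set.Ico x y) := (Set.union_sdiff_cancel hIcoS).symm
    rw [h14, ENNReal.ofReal_add hT10 hT20]
    exact (lintegral_union_le _ _ _).trans (add_le_add h7 h8)
  -- the limit `δ → 0`
  have hcont1 : Continuous fun δ : ℝ => ‖1 - (c : ℂ) * (((1 - δ : ℝ) : ℂ) * ζ)‖ *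
      (Real.exp (-((T1 + T2) / (2 * Real.pi))) / (1 + c)) := by fun_prop
  have hcont2 : Continuous fun δ : ℝ => ‖(cx D.A).eval (((1 - δ : ℝ) : ℂ) * ζ)‖ := by
    have : Continuous fun δ : ℝ => (((1 - δ : ℝ) : ℂ) * ζ) := by fun_prop
    exact ((cx D.A).continuous.comp this).norm
  have h15 : Tendsto (fun δ : ℝ => ‖1 - (c : ℂ) * (((1 - δ : ℝ) : ℂ) * ζ)‖ *
      (Real.exp (-((T1 + T2) / (2 * Real.pi))) / (1 + c))) (𝓝[>] 0)
      (𝓝 (‖1 - (c : ℂ) * ζ‖ * (Real.exp (-((T1 + T2) / (2 * Real.pi))) / (1 + c)))) := by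
    have := hcont1.tendsto 0
    simp only [sub_zero, Complex.ofReal_one, one_mul] at this
    exact this.mono_left nhdsWithin_le_nhds
  have h16 : Tendsto (fun δ : ℝ => ‖(cx D.A).eval (((1 - δ : ℝ) : ℂ) * ζ)‖) (𝓝[>] 0)
      (𝓝 ‖(cx D.A).eval ζ‖) := by
    have := hcont2.tendsto 0
    simp only [sub_zero, Complex.ofReal_one, one_mul] at this
    exact this.mono_left nhdsWithin_le_nhds
  have h17 : ‖1 - (c : ℂ) * ζ‖ * (Real.exp (-((T1 + T2) / (2 * Real.pi))) / (1 + c)) ≤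
      ‖(cx D.A).eval ζ‖ := by
    refine le_of_tendsto_of_tendsto h15 h16 ?_
    have hev : ∀ᶠ δ in 𝓝[>] (0 : ℝ), δ ∈ Set.Ioo (0 : ℝ) (min 1 (r₀ / 2)) :=
      Ioo_mem_nhdsGT (lt_min one_pos (half_pos hr₀))
    filter_upwards [hev] with δ hδ
    exact hmain δ hδ.1 (hδ.2.trans_le (min_le_left _ _)) (hδ.2.le.trans (min_le_right _ _))
  rw [hA, norm_zero] at h17
  have h18 : 0 < Real.exp (-((T1 + T2) / (2 * Real.pi))) / (1 + c) :=
    div_pos (Real.exp_pos _) (by linarith)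
  have h19 : ‖1 - (c : ℂ) * ζ‖ ≤ 0 := by
    by_contra hcon
    have := mul_pos (not_le.1 hcon) h18
    linarith
  have h20 : 1 - (c : ℂ) * ζ = 0 := norm_le_zero_iff.1 h19
  rw [sub_eq_zero] at h20
  have h21 : ‖(1 : ℂ)‖ = ‖(c : ℂ) * ζ‖ := by rw [← h20]
  rw [norm_one, norm_mul, hζ1, mul_one, Complex.norm_real, Real.norm_eq_abs,
    abs_of_pos (by linarith)] at h21
  linarith

theorem pisot (D : Ctx k N K c U) : IsPisot c := by
  have hc := D.hc
  have hcC : (c : ℂ) ≠ 0 := by rw [Ne, Complex.ofReal_eq_zero]; linarith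
  refine pisot_of D.hc D.A D.A_zero D.root (fun w hw hA => D.disc hw hA) ?_
  intro hint z hz hz1 hzne hA
  have hz0 : z ≠ 0 := by
    rintro rfl
    simp at hz1
  have h1 := D.circle hz1 hzne hA
  -- all blocks vanish at `1 / c`
  have h2 : ∀ j ∈ blocks U D.m k, Bl U D.m D.a k j ((c : ℂ)⁻¹) = 0 := fun j hj =>
    zpow_transfer hcC hz0 (conj_transfer hint hz) _ _ _ (h1 j hj)
  have h3 : ∀ᶠ τ in (U : Filter ℝ), False := by
    filter_upwards [eval_blocks U D.m D.hG, D.hne, D.hfac, D.hroots] with τ h4 h5 h6 h7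
    have h8 := h4 _ (inv_ne_zero hcC)
    rw [Finset.sum_eq_zero fun j hj => by rw [h2 j hj, mul_zero]] at h8
    have h9 : (cx (D.G τ)).eval ((c : ℂ)⁻¹) = 0 := h8
    rw [h6, eval_mul] at h9
    rcases mul_eq_zero.1 h9 with h10 | h10
    · simp only [eval_sub, eval_one, eval_mul, eval_C, eval_X] at h10
      rw [sub_eq_zero, eq_comm, ← div_eq_mul_inv, div_eq_one_iff_eq hcC] at h10
      exact h5 (by exact_mod_cast h10)
    · have h11 := h7 _ h10
      rw [norm_inv, Complex.norm_real, Real.norm_eq_abs, abs_of_pos (by linarith)] at h11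
      have := inv_lt_one_of_one_lt₀ hc
      linarith
  exact (h3.exists).elim fun _ h => h

end Ctx

/-- the numbers `τ > 1` which are roots and Mahler measures of integer polynomials with at most
`k` nonzero coefficients -/
def MT (k : ℕ) : Set ℝ :=
  {τ | 1 < τ ∧ ∃ F : ℤ[X], F ≠ 0 ∧ F.support.card ≤ k ∧ aeval τ F = 0 ∧
    (F.map (Int.castRingHom ℂ)).mahlerMeasure = τ}

theorem coeff_bound {k N : ℕ} {K : ℝ} (hK : 1 ≤ K) (hN : 1 ≤ N) (h : SVP k K N) {F : ℤ[X]}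
    (hk : F.support.card ≤ k) {τ : ℝ} (hτ : 1 < τ)
    (hM : (F.map (Int.castRingHom ℂ)).mahlerMeasure = τ) (i : ℕ) :
    |F.coeff i| ≤ ⌊τ * Real.exp (N * (K * geo))⌋ := by
  have hpos : 0 < τ * Real.exp (N * (K * geo)) := mul_pos (by linarith) (Real.exp_pos _)
  rw [Int.le_floor]
  by_cases h0 : F.coeff i = 0
  · rw [h0]; simp only [abs_zero, Int.cast_zero]; exact hpos.le
  · have h1 : (F.map (Int.castRingHom ℂ)).coeff i = (F.coeff i : ℂ) := by
      rw [coeff_map]; rfl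
    have h2 : (F.map (Int.castRingHom ℂ)).coeff i ≠ 0 := by
      rw [h1]; exact_mod_cast h0
    have h3 := logMahler_lower hK hN h
      ((Finset.card_le_card (support_map_subset _ _)).trans hk) i h2
    rw [logMahlerMeasure_eq_log_MahlerMeasure, hM, h1, Complex.norm_intCast] at h3
    have h4 : 0 < |(F.coeff i : ℝ)| := abs_pos.2 (by exact_mod_cast h0)
    have h5 : Real.log |(F.coeff i : ℝ)| ≤ Real.log (τ * Real.exp (N * (K * geo))) := by
      rw [Real.log_mul (by linarith) (Real.exp_pos _).ne', Real.log_exp]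
      linarith
    have h6 := (Real.log_le_log_iff h4 hpos).1 h5
    rw [Int.cast_abs]
    exact h6

/-- every accumulation point different from `1` is a Pisot number -/
theorem limit_pisot (k : ℕ) (c : ℝ) (h : AccPt c (𝓟 (MT k))) : c = 1 ∨ IsPisot c := by
  obtain ⟨K, hK, N, hN, hSV⟩ := SV k
  have hNB : (𝓝[≠] c ⊓ 𝓟 (MT k)).NeBot := h
  set U : Ultrafilter ℝ := Ultrafilter.of (𝓝[≠] c ⊓ 𝓟 (MT k)) with hUdef
  have hU : (U : Filter ℝ) ≤ 𝓝[≠] c ⊓ 𝓟 (MT k) := Ultrafilter.of_le _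
  have hMT : ∀ᶠ τ in (U : Filter ℝ), τ ∈ MT k := (hU.trans inf_le_right) (mem_principal_self _)
  have hne : ∀ᶠ τ in (U : Filter ℝ), τ ≠ c :=
    (hU.trans inf_le_left) self_mem_nhdsWithin
  have hlim : Tendsto (fun τ : ℝ => τ) (U : Filter ℝ) (𝓝 c) :=
    (hU.trans inf_le_left).trans nhdsWithin_le_nhds
  have h1 : ∀ᶠ τ in (U : Filter ℝ), 1 < τ := hMT.mono fun τ hτ => hτ.1
  have hc1 : 1 ≤ c := ge_of_tendsto hlim (h1.mono fun τ hτ => hτ.le)
  rcases hc1.eq_or_lt with hc | hc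
  · exact Or.inl hc.symm
  right
  set H : ℤ := ⌊(c + 1) * Real.exp (N * (K * geo))⌋ with hH
  have hH0 : 0 ≤ H := Int.floor_nonneg.2 (mul_nonneg (by linarith) (Real.exp_pos _).le)
  have hle : ∀ᶠ τ in (U : Filter ℝ), τ ≤ c + 1 :=
    (hlim.eventually (gt_mem_nhds (by linarith : c < c + 1))).mono fun τ hτ => le_of_lt hτ
  have hex : ∀ τ : ℝ, ∃ (G : ℤ[X]) (R : ℂ[X]) (a : ℕ → ℤ) (m : ℕ → ℕ), τ ∈ MT k → τ ≤ c + 1 →
      G.coeff 0 = 1 ∧ G.support.card ≤ k ∧ R ≠ 0 ∧ (∀ z, R.eval z = 0 → 1 ≤ ‖z‖) ∧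
      cx G = (1 - C (τ : ℂ) * X) * R ∧
      G = ∑ i ∈ Finset.range k, C (a i) * X ^ (m i) ∧ ∀ i, |a i| ≤ H := by
    intro τ
    by_cases hτ : τ ∈ MT k ∧ τ ≤ c + 1
    · obtain ⟨⟨hτ1, F, hF, hFk, hFr, hFM⟩, hτc⟩ := hτ
      obtain ⟨G, R, g0, g1, g2, g3, g4, g5⟩ := extract hτ1 hF hFr hFM
      have hb : ∀ i, |G.coeff i| ≤ H := by
        refine g2 H fun i => (coeff_bound hK hN hSV hFk hτ1 hFM i).trans ?_
        exact Int.floor_le_floor (mul_le_mul_of_nonneg_right hτc (Real.exp_pos _).le)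
      obtain ⟨a, m, hG, ha⟩ := rep_terms k G H hH0 (g1.trans hFk) hb
      exact ⟨G, R, a, m, fun _ _ => ⟨g0, g1.trans hFk, g3, g4, g5, hG, ha⟩⟩
    · exact ⟨0, 0, 0, 0, fun h2 h3 => absurd ⟨h2, h3⟩ hτ⟩
  choose G R a m hall using hex
  have hev := hMT.and hle
  have ha : ∀ i, ∃ a₀ : ℤ, ∀ᶠ τ in (U : Filter ℝ), a τ i = a₀ := fun i =>
    uf_const U (fun τ => a τ i) H (hev.mono fun τ hτ => (hall τ hτ.1 hτ.2).2.2.2.2.2.2 i)
  choose a₀ ha₀ using ha
  refine Ctx.pisot (k := k) (N := N) (K := K) (c := c) (U := U)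
    { G := G, R := R, m := fun i τ => m τ i, a := a₀, hK := hK, hN := hN, hSV := hSV, hc := hc,
      hlim := hlim, hne := hne, h1 := h1
      h0 := hev.mono fun τ hτ => (hall τ hτ.1 hτ.2).1
      hk := hev.mono fun τ hτ => (hall τ hτ.1 hτ.2).2.1
      hR := hev.mono fun τ hτ => (hall τ hτ.1 hτ.2).2.2.1
      hroots := hev.mono fun τ hτ => (hall τ hτ.1 hτ.2).2.2.2.1
      hfac := hev.mono fun τ hτ => (hall τ hτ.1 hτ.2).2.2.2.2.1
      hG := ?_ }
  have hfin : ∀ᶠ τ in (U : Filter ℝ), ∀ i ∈ Finset.range k, a τ i = a₀ i := by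
    rw [Filter.eventually_all_finset]
    exact fun i _ => ha₀ i
  filter_upwards [hev, hfin] with τ hτ hτ2
  rw [(hall τ hτ.1 hτ.2).2.2.2.2.2.1]
  exact Finset.sum_congr rfl fun i hi => by rw [hτ2 i hi]

end Pool.Agent.Helper96.Salem
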