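import Pool.Agent.Helper96.Salem.Arc

/-!
Poisson formula for the logarithm of a polynomial without roots in the open unit disc.
-/

namespace Pool.Agent.Helper96.Salem

open MeasureTheory Set Polynomial

/-- Poisson kernel -/
noncomputable def PK (w z : ℂ) : ℝ := (herglotzRieszKernel 0 w z).re

/-- Poisson average of the logarithm of a polynomial -/
noncomputable def PA (w : ℂ) (R : ℂ[X]) : ℝ :=
  Real.circleAverage (fun z => PK w z * Real.log ‖R.eval z‖) 0 1

theorem circle_norm (t : ℝ) : ‖circleMap 0 1 t‖ = 1 := by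
  rw [norm_circleMap_zero, abs_one]

theorem circle_ne {w : ℂ} (hw : ‖w‖ < 1) (t : ℝ) : circleMap 0 1 t - w ≠ 0 := by
  intro h
  rw [sub_eq_zero] at h
  rw [← h, circle_norm] at hw
  exact lt_irrefl _ hw

theorem PK_continuous {w : ℂ} (hw : ‖w‖ < 1) : Continuous fun t : ℝ => PK w (circleMap 0 1 t) := by
  unfold PK
  simp only [herglotzRieszKernel_def, sub_zero]
  have hne : ∀ t : ℝ, circleMap 0 1 t - w ≠ 0 := circle_ne hw
  fun_prop (disch := exact hne _)

theorem PK_eq {w : ℂ} (z : ℂ) : PK w z = (‖z‖ ^ 2 - ‖w‖ ^ 2) / ‖z - w‖ ^ 2 := by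
  have h := congrFun (poissonKernel_eq_re_herglotzRieszKernel (c := 0) (w := w)) z
  rw [poissonKernel_def] at h
  simp only [sub_zero, Function.comp_apply] at h
  exact h.symm

theorem PK_pos {w : ℂ} (hw : ‖w‖ < 1) (t : ℝ) : 0 < PK w (circleMap 0 1 t) := by
  rw [PK_eq, circle_norm]
  have h1 : 0 < ‖circleMap 0 1 t - w‖ := norm_pos_iff.2 (circle_ne hw t)
  have h2 : 0 < 1 ^ 2 - ‖w‖ ^ 2 := by nlinarith [norm_nonneg w]
  positivity

theorem PK_le {w : ℂ} (hw : ‖w‖ < 1) (t : ℝ) :
    PK w (circleMap 0 1 t) ≤ (1 + ‖w‖) / (1 - ‖w‖) := by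
  have h := re_herglotzRieszKernel_le (c := 0) (z := circleMap 0 1 t) (w := w) (R := 1)
    (by rw [mem_sphere_iff_norm, sub_zero, circle_norm]) (by simpa using hw)
  simp only [sub_zero] at h
  unfold PK
  rw [herglotzRieszKernel_def]
  simpa using h

theorem PK_integrable_log {w : ℂ} (hw : ‖w‖ < 1) (R : ℂ[X]) :
    IntervalIntegrable (fun t => PK w (circleMap 0 1 t) * Real.log ‖R.eval (circleMap 0 1 t)‖)
      volume 0 (2 * Real.pi) :=
  (R.intervalIntegrable_mahlerMeasure).continuousOn_mul (PK_continuous hw).continuousOn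

theorem PA_mul {w : ℂ} (hw : ‖w‖ < 1) {p q : ℂ[X]} (hp : p ≠ 0) (hq : q ≠ 0) :
    PA w (p * q) = PA w p + PA w q := by
  unfold PA
  rw [Real.circleAverage_def, Real.circleAverage_def, Real.circleAverage_def, ← smul_add,
    ← intervalIntegral.integral_add (PK_integrable_log hw p) (PK_integrable_log hw q)]
  congr 1
  apply intervalIntegral.integral_congr_ae
  rw [MeasureTheory.ae_iff]
  apply Set.Finite.measure_zero _ MeasureTheory.volume
  simp only [Classical.not_imp]
  apply Set.Finite.of_finite_image (f := circleMap 0 1) _ <|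
    (injOn_circleMap_of_abs_sub_le one_ne_zero
      (by simp [le_of_eq, Real.pi_nonneg])).mono (fun _ h ↦ h.1)
  apply (p * q).roots.finite_toSet.subset
  rintro _ ⟨t, ⟨_, h⟩, rfl⟩
  contrapose h
  have h1 : p.eval (circleMap 0 1 t) ≠ 0 ∧ q.eval (circleMap 0 1 t) ≠ 0 := by
    have h2 : ¬p = 0 → ¬q = 0 → ¬eval (circleMap 0 1 t) p = 0 ∧ ¬eval (circleMap 0 1 t) q = 0 := by
      simpa using h
    exact h2 hp hq
  rw [eval_mul, norm_mul, Real.log_mul (norm_ne_zero_iff.2 h1.1) (norm_ne_zero_iff.2 h1.2)]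
  ring

/-- average of the kernel -/
theorem PK_avg {w : ℂ} (hw : ‖w‖ < 1) : Real.circleAverage (PK w) 0 1 = 1 := by
  have hf : DiffContOnCl ℂ (fun _ : ℂ => (1 : ℝ) • (1 : ℂ)) (Metric.ball 0 1) :=
    diffContOnCl_const
  have h := hf.circleAverage_re_herglotzRieszKernel_smul (w := w) (c := 0) (R := 1)
    (by simpa using hw)
  have h2 : Real.circleAverage ((Complex.re ∘ herglotzRieszKernel 0 w) •
      fun _ : ℂ => (1 : ℝ) • (1 : ℂ)) 0 1 = ((Real.circleAverage (PK w) 0 1 : ℝ) : ℂ) := by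
    rw [Real.circleAverage_def, Real.circleAverage_def]
    simp only [Pi.smul_apply', Function.comp_apply, one_smul, PK]
    rw [Complex.real_smul, smul_eq_mul]
    push_cast
    congr 1
    rw [← intervalIntegral.integral_ofReal]
    refine intervalIntegral.integral_congr fun t _ => ?_
    simp
  rw [h2] at h
  have h3 : ((Real.circleAverage (PK w) 0 1 : ℝ) : ℂ) = ((1 : ℝ) : ℂ) := by rw [h]; simp
  exact_mod_cast h3

theorem PA_C {w : ℂ} (hw : ‖w‖ < 1) (a : ℂ) : PA w (C a) = Real.log ‖a‖ := by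
  unfold PA
  simp only [eval_C]
  have h1 : (fun z => PK w z * Real.log ‖a‖) = Real.log ‖a‖ • PK w := by
    funext z
    simp [mul_comm]
  rw [h1, Real.circleAverage_smul, PK_avg hw]
  simp

theorem PA_X_sub {w a : ℂ} (hw : ‖w‖ < 1) (ha : 1 ≤ ‖a‖) :
    PA w (X - C a) = Real.log ‖w - a‖ := by
  unfold PA
  simp only [eval_sub, eval_X, eval_C]
  rcases ha.lt_or_eq with h | h
  · have hf : InnerProductSpace.HarmonicOnNhd (fun z : ℂ => Real.log ‖z - a‖)
        (Metric.closedBall 0 1) := by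
      intro z hz
      refine AnalyticAt.harmonicAt_log_norm (f := fun z => z - a) (by fun_prop) ?_
      intro h0
      rw [sub_eq_zero] at h0
      rw [h0] at hz
      have : ‖a‖ ≤ 1 := by simpa using hz
      linarith
    exact hf.circleAverage_re_herglotzRieszKernel_smul (w := w) (by simpa using hw)
  · exact circleAverage_re_herglotzRieszKernel_mul_log (w := w) (ρ := a) (c := 0) (R := 1)
      (by rw [mem_sphere_iff_norm, sub_zero]; exact h.symm) (by simpa using hw)

theorem PA_prod {w : ℂ} (hw : ‖w‖ < 1) (s : Multiset ℂ) : (∀ a ∈ s, 1 ≤ ‖a‖) →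
    PA w ((s.map (fun a => X - C a)).prod) =
      Real.log ‖((s.map (fun a => X - C a)).prod).eval w‖ := by
  induction s using Multiset.induction_on with
  | empty =>
    intro _
    have := PA_C hw 1
    simpa using this
  | cons a s ih =>
    intro h
    have ha : 1 ≤ ‖a‖ := h a (Multiset.mem_cons_self a s)
    have hs : ∀ a ∈ s, 1 ≤ ‖a‖ := fun b hb => h b (Multiset.mem_cons_of_mem hb)
    have hne : (s.map (fun a => X - C a)).prod ≠ 0 := (monic_multiset_prod_of_monic s
      (fun a => X - C a) fun a _ => monic_X_sub_C a).ne_zero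
    rw [Multiset.map_cons, Multiset.prod_cons, PA_mul hw (X_sub_C_ne_zero a) hne,
      PA_X_sub hw ha, ih hs, eval_mul, norm_mul, Real.log_mul]
    · simp
    · rw [eval_sub, eval_X, eval_C]
      intro h0
      rw [norm_eq_zero, sub_eq_zero] at h0
      rw [← h0] at ha
      linarith
    · rw [norm_ne_zero_iff, eval_multiset_prod, Ne, Multiset.prod_eq_zero_iff]
      intro h0
      rw [Multiset.map_map, Multiset.mem_map] at h0
      obtain ⟨b, hb, hb'⟩ := h0
      simp only [Function.comp_apply, eval_sub, eval_X, eval_C] at hb'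
      rw [sub_eq_zero] at hb'
      have := hs b hb
      rw [← hb'] at this
      linarith

theorem PA_eq {w : ℂ} (hw : ‖w‖ < 1) {R : ℂ[X]} (hR : R ≠ 0)
    (hroots : ∀ a, R.eval a = 0 → 1 ≤ ‖a‖) : PA w R = Real.log ‖R.eval w‖ := by
  have h1 : R = C R.leadingCoeff * (R.roots.map (fun a => X - C a)).prod :=
    (IsAlgClosed.splits R).eq_prod_roots
  have hne : (R.roots.map (fun a => X - C a)).prod ≠ 0 := (monic_multiset_prod_of_monic _
      (fun a => X - C a) fun a _ => monic_X_sub_C a).ne_zero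
  have hl : R.leadingCoeff ≠ 0 := leadingCoeff_ne_zero.2 hR
  have hw0 : R.eval w ≠ 0 := fun h => absurd (hroots w h) (not_le.2 hw)
  have h2 : R.eval w = R.leadingCoeff * ((R.roots.map (fun a => X - C a)).prod).eval w := by
    conv_lhs => rw [h1, eval_mul, eval_C]
  have h3 : ((R.roots.map (fun a => X - C a)).prod).eval w ≠ 0 := by
    intro h
    rw [h2, h, mul_zero] at hw0
    exact hw0 rfl
  rw [h2, norm_mul, Real.log_mul (norm_ne_zero_iff.2 hl) (norm_ne_zero_iff.2 h3)]
  conv_lhs => rw [h1, PA_mul hw (C_ne_zero.2 hl) hne, PA_C hw]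
  rw [PA_prod hw R.roots fun a ha => hroots a (by
    rw [mem_roots hR] at ha; exact ha)]

end Pool.Agent.Helper96.Salem
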