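import Mathlib

/-!
Small values of exponential sums with a bounded number of terms and separated frequencies.
-/

namespace Pool.Agent.Helper96.Salem

open MeasureTheory Set

/-- exponential sum -/
noncomputable def ES (s : Finset ℕ) (lam : ℕ → ℝ) (c : ℕ → ℂ) (t : ℝ) : ℂ :=
  ∑ i ∈ s, c i * Complex.exp (((lam i * t : ℝ) : ℂ) * Complex.I)

theorem ES_continuous (s : Finset ℕ) (lam : ℕ → ℝ) (c : ℕ → ℂ) : Continuous (ES s lam c) := by
  unfold ES
  fun_prop

theorem norm_exp_I (u : ℝ) : ‖Complex.exp ((u : ℂ) * Complex.I)‖ = 1 :=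
  Complex.norm_exp_ofReal_mul_I u

/-- the difference trick -/
theorem ES_diff (s : Finset ℕ) (lam : ℕ → ℝ) (c : ℕ → ℂ) {i : ℕ} (hi : i ∈ s) (t h : ℝ) :
    ES s lam c (t + h) - Complex.exp (((lam i * h : ℝ) : ℂ) * Complex.I) * ES s lam c t =
      ES (s.erase i) lam (fun m => c m * (Complex.exp (((lam m * h : ℝ) : ℂ) * Complex.I) -
        Complex.exp (((lam i * h : ℝ) : ℂ) * Complex.I))) t := by
  unfold ES
  rw [← Finset.add_sum_erase s _ hi, ← Finset.add_sum_erase s (fun m => c m *
    Complex.exp (((lam m * t : ℝ) : ℂ) * Complex.I)) hi,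
    mul_add (Complex.exp (((lam i * h : ℝ) : ℂ) * Complex.I)), Finset.mul_sum]
  have h1 : ∀ m, Complex.exp (((lam m * (t + h) : ℝ) : ℂ) * Complex.I) =
      Complex.exp (((lam m * t : ℝ) : ℂ) * Complex.I) *
        Complex.exp (((lam m * h : ℝ) : ℂ) * Complex.I) := by
    intro m
    rw [← Complex.exp_add]
    congr 1
    push_cast
    ring
  have h2 : c i * Complex.exp (((lam i * (t + h) : ℝ) : ℂ) * Complex.I) =
      Complex.exp (((lam i * h : ℝ) : ℂ) * Complex.I) *
        (c i * Complex.exp (((lam i * t : ℝ) : ℂ) * Complex.I)) := by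
    rw [h1 i]; ring
  rw [h2, add_sub_add_left_eq_sub, ← Finset.sum_sub_distrib]
  refine Finset.sum_congr rfl fun m _ => ?_
  rw [h1 m]
  ring

theorem exp_sub_one_lower {v : ℝ} (hv : |v| ≤ Real.pi) :
    2 / Real.pi * |v| ≤ ‖Complex.exp ((v : ℂ) * Complex.I) - 1‖ := by
  rw [mul_comm (v : ℂ) Complex.I, Complex.norm_exp_I_mul_ofReal_sub_one]
  have h1 : |v / 2| ≤ Real.pi / 2 := by
    rw [abs_div, abs_of_pos (by norm_num : (0 : ℝ) < 2)]; linarith
  have h2 := Real.mul_abs_le_abs_sin h1
  rw [Real.norm_eq_abs, abs_mul, abs_of_pos (by norm_num : (0 : ℝ) < 2)]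
  rw [abs_div, abs_of_pos (by norm_num : (0 : ℝ) < 2)] at h2
  linarith

/-- the `h` for which `exp (i μ h)` is close to `1` -/
theorem bad_measure {μ ℓ η : ℝ} (hμ : μ ≠ 0) (hℓ : 2 * Real.pi ≤ |μ| * ℓ) (hη : 0 ≤ η) :
    volume {h : ℝ | |h| ≤ ℓ ∧ ‖Complex.exp (((μ * h : ℝ) : ℂ) * Complex.I) - 1‖ < η} ≤
      ENNReal.ofReal (4 * η * ℓ) := by
  have hpi := Real.pi_pos
  have hμ' : 0 < |μ| := abs_pos.2 hμ
  set x : ℝ := |μ| * ℓ / (2 * Real.pi) with hx
  have hx1 : 1 ≤ x := by rw [hx, le_div_iff₀ (by positivity)]; linarith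
  set M : ℤ := ⌊x + 1 / 2⌋ with hM
  set r : ℝ := Real.pi * η / (2 * |μ|) with hr
  have hr0 : 0 ≤ r := by positivity
  have hsub : {h : ℝ | |h| ≤ ℓ ∧ ‖Complex.exp (((μ * h : ℝ) : ℂ) * Complex.I) - 1‖ < η} ⊆
      ⋃ m ∈ Finset.Icc (-M) M, Icc (2 * Real.pi * m / μ - r) (2 * Real.pi * m / μ + r) := by
    rintro h ⟨h1, h2⟩
    rw [mem_iUnion₂]
    set m : ℤ := round (μ * h / (2 * Real.pi)) with hm
    have h3 : |μ * h / (2 * Real.pi) - m| ≤ 1 / 2 := abs_sub_round _
    set v : ℝ := μ * h - 2 * Real.pi * m with hv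
    have h4 : v = 2 * Real.pi * (μ * h / (2 * Real.pi) - m) := by
      rw [hv]; field_simp
    have h5 : |v| ≤ Real.pi := by
      rw [h4, abs_mul, abs_of_pos (by positivity : (0 : ℝ) < 2 * Real.pi)]
      nlinarith
    have h6 : Complex.exp (((μ * h : ℝ) : ℂ) * Complex.I) =
        Complex.exp ((v : ℂ) * Complex.I) := by
      rw [Complex.exp_eq_exp_iff_exists_int]
      refine ⟨m, ?_⟩
      rw [hv]; push_cast; ring
    rw [h6] at h2
    have h7 := exp_sub_one_lower h5
    have h8 : |v| < Real.pi * η / 2 := by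
      have : 2 / Real.pi * |v| < η := lt_of_le_of_lt h7 h2
      rw [div_mul_eq_mul_div, div_lt_iff₀ hpi] at this
      linarith
    refine ⟨m, ?_, ?_⟩
    · have h9 : |μ * h / (2 * Real.pi)| ≤ x := by
        rw [hx, abs_div, abs_mul, abs_of_pos (by positivity : (0 : ℝ) < 2 * Real.pi)]
        gcongr
      have h10 : |(m : ℝ)| ≤ x + 1 / 2 := by
        have : (m : ℝ) = μ * h / (2 * Real.pi) - (μ * h / (2 * Real.pi) - m) := by ring
        rw [this]
        exact (abs_sub _ _).trans (add_le_add h9 h3)
      have h11 := abs_le.1 h10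
      rw [Finset.mem_Icc]
      constructor
      · have : -m ≤ M := Int.le_floor.2 (by push_cast; linarith)
        linarith
      · exact Int.le_floor.2 h11.2
    · have h12 : h - 2 * Real.pi * m / μ = v / μ := by
        rw [hv]; field_simp
      have h13 : |h - 2 * Real.pi * m / μ| ≤ r := by
        rw [h12, abs_div, hr, div_le_div_iff₀ hμ' (by positivity)]
        nlinarith
      have h14 := abs_le.1 h13
      constructor <;> linarith
  refine (measure_mono hsub).trans ((measure_biUnion_finset_le _ _).trans ?_)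
  have h15 : ∀ m ∈ Finset.Icc (-M) M,
      volume (Icc (2 * Real.pi * (m : ℤ) / μ - r) (2 * Real.pi * m / μ + r)) =
        ENNReal.ofReal (2 * r) := by
    intro m _
    rw [Real.volume_Icc]; congr 1; ring
  rw [Finset.sum_congr rfl h15, Finset.sum_const, Int.card_Icc, nsmul_eq_mul]
  have hM0 : 0 ≤ M := Int.le_floor.2 (by push_cast; linarith)
  have hM1 : (M : ℝ) ≤ x + 1 / 2 := Int.floor_le _
  have h16 : (((M + 1 - -M).toNat : ℕ) : ENNReal) = ENNReal.ofReal (2 * M + 1) := by
    have h17 : ((M + 1 - -M).toNat : ℤ) = 2 * M + 1 := by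
      rw [Int.toNat_of_nonneg (by linarith)]; ring
    have h18 : (2 * (M : ℝ) + 1) = ((M + 1 - -M).toNat : ℕ) := by
      exact_mod_cast h17.symm
    rw [h18, ENNReal.ofReal_natCast]
  rw [h16, ← ENNReal.ofReal_mul (by
    have : (0 : ℝ) ≤ M := by exact_mod_cast hM0
    linarith)]
  apply ENNReal.ofReal_le_ofReal
  have hr1 : x * (2 * r) = η * ℓ / 2 := by
    rw [hx, hr]; field_simp
  have hηℓ : 0 ≤ x * (2 * r) := by positivity
  have : (2 * (M : ℝ) + 1) * (2 * r) ≤ (4 * x) * (2 * r) := by
    apply mul_le_mul_of_nonneg_right _ (by positivity)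
    linarith
  have h19 : (4 * x) * (2 * r) = 2 * (η * ℓ) := by rw [mul_assoc, hr1]; ring
  rw [h19] at this
  have h20 : 0 ≤ η * ℓ := by linarith [hr1 ▸ hηℓ]
  linarith

/-- the self-convolution identity -/
theorem sq_measure {E : Set ℝ} (hE : MeasurableSet E) :
    volume E * volume E = ∫⁻ h, volume {t | t ∈ E ∧ t + h ∈ E} := by
  have hmp := measurePreserving_prod_add (volume : Measure ℝ) (volume : Measure ℝ)
  have h1 := hmp.measure_preimage (hE.prod hE).nullMeasurableSet
  rw [Measure.prod_prod] at h1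
  rw [← h1, Measure.prod_apply_symm (hmp.measurable (hE.prod hE))]
  rfl

/-- `C` and `N` are constants for the small values of exponential sums with `k` terms. -/
def SVP (k : ℕ) (C : ℝ) (N : ℕ) : Prop := ∀ s : Finset ℕ, s.card ≤ k →
    ∀ (lam : ℕ → ℝ) (c : ℕ → ℂ) (j : ℕ), j ∈ s → 1 ≤ ‖c j‖ → ∀ g ℓ a : ℝ, 0 < g → 0 < ℓ →
    2 * Real.pi ≤ g * ℓ → (∀ i ∈ s, ∀ i' ∈ s, i ≠ i' → g ≤ |lam i - lam i'|) →
    ∀ δ : ℝ, 0 < δ → δ ≤ 1 →
    volume {t | t ∈ Icc a (a + ℓ) ∧ ‖ES s lam c t‖ ≤ δ ^ N} ≤ ENNReal.ofReal (C * ℓ * δ)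

theorem SV (k : ℕ) : ∃ C : ℝ, 1 ≤ C ∧ ∃ N : ℕ, 1 ≤ N ∧ SVP k C N := by
  induction k with
  | zero =>
    refine ⟨1, le_rfl, 1, le_rfl, ?_⟩
    intro s hs lam c j hj
    rw [Nat.le_zero, Finset.card_eq_zero] at hs
    rw [hs] at hj
    exact absurd hj (Finset.notMem_empty _)
  | succ k ih =>
    obtain ⟨C, hC, N, hN, ih⟩ := ih
    refine ⟨2 * C + 8, by linarith, 4 * N, by omega, ?_⟩
    intro s hs lam c j hj hcj g ℓ a hg hℓ hgℓ hsep δ hδ hδ1
    set E : Set ℝ := {t | t ∈ Icc a (a + ℓ) ∧ ‖ES s lam c t‖ ≤ δ ^ (4 * N)} with hE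
    have hEm : MeasurableSet E :=
      measurableSet_Icc.inter (measurableSet_le ((ES_continuous s lam c).norm.measurable)
        measurable_const)
    have hEℓ : volume E ≤ ENNReal.ofReal ℓ := by
      refine (measure_mono (fun t ht => ht.1)).trans ?_
      rw [Real.volume_Icc]; apply ENNReal.ofReal_le_ofReal; linarith
    by_cases hone : ∃ i ∈ s, i ≠ j
    · obtain ⟨i, hi, hij⟩ := hone
      have hcard : (s.erase i).card ≤ k := by rw [Finset.card_erase_of_mem hi]; omega
      have hj' : j ∈ s.erase i := Finset.mem_erase.2 ⟨hij.symm, hj⟩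
      set μ : ℝ := lam j - lam i with hμ
      have hμg : g ≤ |μ| := hsep j hj i hi hij.symm
      have hμ0 : μ ≠ 0 := fun h => by rw [h, abs_zero] at hμg; linarith
      have hμℓ : 2 * Real.pi ≤ |μ| * ℓ := hgℓ.trans (mul_le_mul_of_nonneg_right hμg hℓ.le)
      set η : ℝ := 2 * δ ^ (2 * N) with hη
      have hη0 : 0 < η := by positivity
      set B : Set ℝ := {h : ℝ | |h| ≤ ℓ ∧
        ‖Complex.exp (((μ * h : ℝ) : ℂ) * Complex.I) - 1‖ < η} with hB
      have hBm : volume B ≤ ENNReal.ofReal (4 * η * ℓ) := bad_measure hμ0 hμℓ hη0.le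
      have hBmeas : MeasurableSet B := by
        have hm1 : Measurable fun h : ℝ => |h| := continuous_abs.measurable
        have hm2 : Measurable fun h : ℝ =>
            ‖Complex.exp (((μ * h : ℝ) : ℂ) * Complex.I) - 1‖ := by
          apply Continuous.measurable
          fun_prop
        exact (measurableSet_le hm1 measurable_const).inter
          (measurableSet_lt hm2 measurable_const)
      have hf1 : ∀ h, volume {t | t ∈ E ∧ t + h ∈ E} ≤
          (Icc (-ℓ) ℓ).indicator (fun _ => ENNReal.ofReal (C * ℓ * δ ^ 2)) h +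
          B.indicator (fun _ => ENNReal.ofReal ℓ) h := by
        intro h
        by_cases hh : |h| ≤ ℓ
        · rw [indicator_of_mem (show h ∈ Icc (-ℓ) ℓ from abs_le.1 hh)]
          by_cases hb : h ∈ B
          · rw [indicator_of_mem hb]
            refine (measure_mono (fun t ht => ht.1)).trans (hEℓ.trans ?_)
            exact le_add_self
          · refine le_trans ?_ le_self_add
            have hgood : η ≤ ‖Complex.exp (((μ * h : ℝ) : ℂ) * Complex.I) - 1‖ := by
              by_contra hcon
              exact hb ⟨hh, not_le.1 hcon⟩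
            set c' : ℕ → ℂ := fun m => (c m * (Complex.exp (((lam m * h : ℝ) : ℂ) * Complex.I) -
              Complex.exp (((lam i * h : ℝ) : ℂ) * Complex.I))) / (η : ℂ) with hc'
            have hc'j : 1 ≤ ‖c' j‖ := by
              have e1 : Complex.exp (((lam j * h : ℝ) : ℂ) * Complex.I) -
                  Complex.exp (((lam i * h : ℝ) : ℂ) * Complex.I) =
                  Complex.exp (((lam i * h : ℝ) : ℂ) * Complex.I) *
                  (Complex.exp (((μ * h : ℝ) : ℂ) * Complex.I) - 1) := by
                rw [mul_sub, mul_one, ← Complex.exp_add]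
                congr 2
                rw [hμ]; push_cast; ring
              simp only [hc']
              rw [norm_div, norm_mul, e1, norm_mul, norm_exp_I, one_mul, Complex.norm_real,
                Real.norm_eq_abs, abs_of_pos hη0, le_div_iff₀ hη0, one_mul]
              calc η ≤ ‖Complex.exp (((μ * h : ℝ) : ℂ) * Complex.I) - 1‖ := hgood
                _ = 1 * ‖Complex.exp (((μ * h : ℝ) : ℂ) * Complex.I) - 1‖ := (one_mul _).symm
                _ ≤ _ := mul_le_mul_of_nonneg_right hcj (norm_nonneg _)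
            have h3 := ih (s.erase i) hcard lam c' j hj' hc'j g ℓ a hg hℓ hgℓ
              (fun m hm m' hm' hmm => hsep m (Finset.mem_of_mem_erase hm) m'
                (Finset.mem_of_mem_erase hm') hmm) (δ ^ 2) (by positivity)
              (pow_le_one₀ hδ.le hδ1)
            refine (measure_mono ?_).trans h3
            rintro t ⟨ht1, ht2⟩
            refine ⟨ht1.1, ?_⟩
            have e2 : ES (s.erase i) lam c' t = (ES s lam c (t + h) -
                Complex.exp (((lam i * h : ℝ) : ℂ) * Complex.I) * ES s lam c t) / (η : ℂ) := by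
              rw [ES_diff s lam c hi t h]
              unfold ES
              rw [Finset.sum_div]
              refine Finset.sum_congr rfl fun m _ => ?_
              simp only [hc']
              ring
            rw [e2, norm_div, Complex.norm_real, Real.norm_eq_abs, abs_of_pos hη0,
              div_le_iff₀ hη0]
            refine (norm_sub_le _ _).trans ?_
            rw [norm_mul, norm_exp_I, one_mul]
            have e3 : (δ ^ 2) ^ N * η = δ ^ (4 * N) + δ ^ (4 * N) := by
              rw [hη, ← pow_mul]; ring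
            rw [e3]
            exact add_le_add ht2.2 ht1.2
        · have hempty : {t | t ∈ E ∧ t + h ∈ E} = ∅ := by
            ext t
            simp only [mem_ofPred_eq, mem_empty_iff_false, iff_false, not_and]
            intro ht1 ht2
            apply hh
            have h4 := ht1.1
            have h5 := ht2.1
            rw [mem_Icc] at h4 h5
            rw [abs_le]
            constructor <;> linarith
          rw [hempty, measure_empty]
          exact zero_le
      have hsq := sq_measure hEm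
      have hint : volume E * volume E ≤ ENNReal.ofReal (((2 * C + 8) * ℓ * δ) ^ 2) := by
        rw [hsq]
        refine (lintegral_mono hf1).trans ?_
        rw [lintegral_add_left (measurable_const.indicator measurableSet_Icc),
          lintegral_indicator measurableSet_Icc, lintegral_indicator hBmeas,
          setLIntegral_const, setLIntegral_const, Real.volume_Icc]
        refine (add_le_add_right (mul_le_mul_right hBm _) _).trans ?_
        rw [← ENNReal.ofReal_mul (by positivity), ← ENNReal.ofReal_mul (by positivity),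
          ← ENNReal.ofReal_add]
        · apply ENNReal.ofReal_le_ofReal
          have h6 : η ≤ 2 * δ ^ 2 := by
            rw [hη]
            have : δ ^ (2 * N) ≤ δ ^ 2 := pow_le_pow_of_le_one hδ.le hδ1 (by omega)
            linarith
          have h7 : ℓ * (4 * η * ℓ) ≤ 8 * (ℓ ^ 2 * δ ^ 2) := by
            have : 4 * ℓ ^ 2 * η ≤ 4 * ℓ ^ 2 * (2 * δ ^ 2) :=
              mul_le_mul_of_nonneg_left h6 (by positivity)
            nlinarith
          have h8 : (2 * C + 8) * (ℓ ^ 2 * δ ^ 2) ≤ ((2 * C + 8) * ℓ * δ) ^ 2 := by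
            have h9 : ((2 * C + 8) * ℓ * δ) ^ 2 = (2 * C + 8) ^ 2 * (ℓ ^ 2 * δ ^ 2) := by ring
            rw [h9]
            apply mul_le_mul_of_nonneg_right _ (by positivity)
            nlinarith
          have h10 : C * ℓ * δ ^ 2 * (ℓ - -ℓ) = 2 * C * (ℓ ^ 2 * δ ^ 2) := by ring
          rw [h10]
          nlinarith
        · have : 0 ≤ ℓ - -ℓ := by linarith
          positivity
        · positivity
      have h11 : volume E ≤ ENNReal.ofReal ((2 * C + 8) * ℓ * δ) := by
        rw [ENNReal.ofReal_pow (by positivity), sq] at hint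
        by_contra hcon
        have hcon' := not_le.1 hcon
        exact absurd hint (not_le.2 (ENNReal.mul_lt_mul hcon' hcon'))
      exact h11
    · push Not at hone
      have hs1 : s = {j} := by
        ext i
        rw [Finset.mem_singleton]
        exact ⟨fun h => hone i h, fun h => h ▸ hj⟩
      rcases hδ1.lt_or_eq with hlt | heq
      · have hempty : E = ∅ := by
          ext t
          simp only [hE, mem_ofPred_eq, mem_empty_iff_false, iff_false, not_and, not_le]
          intro _
          rw [hs1]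
          unfold ES
          rw [Finset.sum_singleton, norm_mul, norm_exp_I, mul_one]
          exact lt_of_lt_of_le (pow_lt_one₀ hδ.le hlt (by omega)) hcj
        rw [hempty, measure_empty]
        exact zero_le
      · refine hEℓ.trans (ENNReal.ofReal_le_ofReal ?_)
        rw [heq]
        nlinarith

end Pool.Agent.Helper96.Salem
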